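import Pool.Agent.Work.MP_8dbde4_lc.Loc.Pairs
import Pool.Agent.Work.MP_8dbde4_lc.Loc.Adds
import Pool.Agent.Work.MP_8dbde4_lc.Phy.Stmts2

/-!
# Languages over trees with finite branching numbers: definitions

The domain is `Word c` for a word `c : ℚ → K` with letters in a finite set `K`: the tree in which
every branch point has `card K` branches.
-/

set_option autoImplicit false
open Classical

namespace Pool.Agent.Work.MP_8dbde4_lc.Bra

open Pool.Agent.Work.MP_8dbde4_lc.TS
open Pool.Agent.Work.MP_8dbde4_lc.Tree (Word Agr Sp Cc SameT)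
open Pool.Agent.Work.MP_8dbde4_lc.Phy (PP Hom)

variable {σ : Sig} {K : Type} {c : ℚ → K}

/-- The tuples `v` and `w` (of words over possibly different alphabets) have the same equalities and
the same splits. -/
def Same {X K K' : Type} {c : ℚ → K} {c' : ℚ → K'} (v : X → Word c) (w : X → Word c') : Prop :=
  (∀ x y, v x = v y ↔ w x = w y) ∧ ∀ x y z, Cc (v z) (v x) (v y) ↔ Cc (w z) (w x) (w y)

/-- The relations depend only on the equalities and the splits of the entries of a tuple. -/
def InvU (𝔅 : Str σ (Word c)) : Prop :=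
  ∀ (R : σ.S) (v w : Fin (σ.ar R) → Word c), Same v w → 𝔅.rel R v → 𝔅.rel R w

/-- The first split of `v` on `Y` is the partition into two classes given by `h`. -/
def Bi {X : Type} (Y : Set X) (v : X → Word c) (h : X → Bool) : Prop :=
  (∃ x ∈ Y, ∃ y ∈ Y, h x ≠ h y) ∧
    ∀ x ∈ Y, ∀ y ∈ Y, ∀ z ∈ Y, h x = h y → h z ≠ h x → Cc (v z) (v x) (v y)

/-- All the splits of `v` on `Y` are binary. -/
def BinOn {X : Type} (Y : Set X) (v : X → Word c) : Prop :=
  ∀ x ∈ Y, ∀ y ∈ Y, ∀ z ∈ Y, (v x = v y ∧ v y = v z) ∨ Cc (v z) (v x) (v y) ∨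
    Cc (v y) (v x) (v z) ∨ Cc (v x) (v y) (v z)

/-- The split relation as a set of triples. -/
abbrev CC : (Fin 3 → Word c) → Prop := Loc.CC

/-- The languages under consideration. -/
structure BLang (𝔅 : Str σ (Word c)) : Prop where
  inv : InvU 𝔅
  ppC : PP 𝔅 (CC (c := c))

/-- The default word of the binary tree. -/
def c₂ : ℚ → Bool := fun _ => false

/-- The restriction of `𝔅` to a subtree. -/
def pull {B B' : Type} (𝔅 : Str σ B) (ι : B' → B) : Str σ B' where
  rel R t := 𝔅.rel R (fun j => ι (t j))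

theorem Same.symm {X K K' : Type} {c : ℚ → K} {c' : ℚ → K'} {v : X → Word c} {w : X → Word c'}
    (H : Same v w) : Same w v :=
  ⟨fun x y => (H.1 x y).symm, fun x y z => (H.2 x y z).symm⟩

theorem Same.trans {X K K' K'' : Type} {c : ℚ → K} {c' : ℚ → K'} {c'' : ℚ → K''} {u : X → Word c}
    {v : X → Word c'} {w : X → Word c''} (H : Same u v) (H' : Same v w) : Same u w :=
  ⟨fun x y => (H.1 x y).trans (H'.1 x y), fun x y z => (H.2 x y z).trans (H'.2 x y z)⟩

theorem Same.comp {X Y K K' : Type} {c : ℚ → K} {c' : ℚ → K'} {v : X → Word c} {w : X → Word c'}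
    (H : Same v w) (e : Y → X) : Same (fun y => v (e y)) (fun y => w (e y)) :=
  ⟨fun x y => H.1 (e x) (e y), fun x y z => H.2 (e x) (e y) (e z)⟩

theorem InvU.inv {𝔅 : Str σ (Word c)} (h : InvU 𝔅) : Loc.Inv 𝔅 :=
  fun R v w hvw => h R v w ⟨hvw.1, fun x y z => hvw.2.2 z x y⟩

end Pool.Agent.Work.MP_8dbde4_lc.Bra
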