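import Pool.Agent.Work.MP_8dbde4_lc.Bra.Trans

/-!
# Example: the split relation and threefold branching
-/

set_option autoImplicit false
open Classical

namespace Pool.Agent.Work.MP_8dbde4_lc.Bra

open Pool.Agent.Work.MP_8dbde4_lc.TS
open Pool.Agent.Work.MP_8dbde4_lc.Tree (Word Agr Cc)
open Pool.Agent.Work.MP_8dbde4_lc.Phy (PP Hom)

variable {K : Type} {c : ℚ → K}

/-- Three different words which split at the same place. -/
def Star (x y z : Word c) : Prop :=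
  x ≠ y ∧ y ≠ z ∧ x ≠ z ∧ ¬ Cc z x y ∧ ¬ Cc y x z ∧ ¬ Cc x y z

/-- Two symbols of arity 3. -/
def sN : Sig where
  S := Bool
  fin := inferInstance
  ar _ := 3

/-- The split relation and the relation `Star`. -/
def CN (c : ℚ → K) : Str sN (Word c) where
  rel
    | true => fun t => Cc (t (0 : Fin 3)) (t (1 : Fin 3)) (t (2 : Fin 3))
    | false => fun t => Star (t (0 : Fin 3)) (t (1 : Fin 3)) (t (2 : Fin 3))

theorem bLang_CN (c : ℚ → K) : BLang (CN c) := by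
  refine ⟨?_, ?_⟩
  · rintro (_ | _) v w hvw hv
    · have h1 : Star (v (0 : Fin 3)) (v (1 : Fin 3)) (v (2 : Fin 3)) := hv
      show Star (w (0 : Fin 3)) (w (1 : Fin 3)) (w (2 : Fin 3))
      obtain ⟨h2, h3, h4, h5, h6, h7⟩ := h1
      refine ⟨fun h => h2 ((hvw.1 _ _).2 h), fun h => h3 ((hvw.1 _ _).2 h),
        fun h => h4 ((hvw.1 _ _).2 h), fun h => h5 ((hvw.2 _ _ _).2 h),
        fun h => h6 ((hvw.2 _ _ _).2 h), fun h => h7 ((hvw.2 _ _ _).2 h)⟩
    · exact (hvw.2 _ _ _).1 (show Cc (v (0 : Fin 3)) (v (1 : Fin 3)) (v (2 : Fin 3)) from hv)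
  · refine ⟨Fin 3, inferInstance, ⟨fun R t => R = true ∧ t = fun j : Fin 3 => j⟩, id,
      fun v => ⟨fun hv => ⟨v, ?_, fun _ => rfl⟩, ?_⟩⟩
    · rintro R t ⟨rfl, rfl⟩
      exact hv
    · rintro ⟨f, hf, hv⟩
      have h1 := hf true (fun j : Fin 3 => j) ⟨rfl, rfl⟩
      have h2 : v = f := funext hv
      rw [h2]
      exact h1

theorem no_star (x y z : Word c₂) : ¬ Star x y z := by
  rintro ⟨h1, h2, h3, h4, h5, h6⟩
  obtain ⟨h, ⟨i, _, j, _, hij⟩, hs⟩ := (Phy.FSX_ok c₂ (Fin 3) Set.univ ![x, y, z]).1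
    ⟨0, trivial, 1, trivial, h1⟩
  have hs' : ∀ i j k : Fin 3, h i = h j → h k ≠ h i →
      Cc ((![x, y, z] : Fin 3 → Word c₂) k) ((![x, y, z] : Fin 3 → Word c₂) i)
        ((![x, y, z] : Fin 3 → Word c₂) j) :=
    fun i j k => hs i trivial j trivial k trivial
  have e0 : h 0 = h 1 → h 2 ≠ h 0 → False := fun a b => h4 (hs' 0 1 2 a b)
  have e1 : h 0 = h 2 → h 1 ≠ h 0 → False := fun a b => h5 (hs' 0 2 1 a b)
  have e2 : h 1 = h 2 → h 0 ≠ h 1 → False := fun a b => h6 (hs' 1 2 0 a b)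
  have hall : ∀ k : Fin 3, h k = h 0 := by
    cases h0 : h 0 <;> cases h1' : h 1 <;> cases h2' : h 2 <;> rw [h0, h1', h2'] at e0 e1 e2 <;>
      intro k <;> fin_cases k <;> simp_all
  exact hij ((hall i).trans (hall j).symm)

/-- the default word with another letter at `0` -/
noncomputable def at0 (c : ℚ → K) (a : K) : Word c :=
  ⟨Function.update c 0 a, by
    refine (Set.finite_singleton (0 : ℚ)).subset (fun r hr => ?_)
    by_contra h
    exact hr (Function.update_of_ne h _ _)⟩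

lemma at0_0 (c : ℚ → K) (a : K) : (at0 c a).1 0 = a := by
  show Function.update c 0 a 0 = a
  rw [Function.update_self]

lemma at0_ne (c : ℚ → K) (a b : K) {q : ℚ} (h : q ≠ 0) : (at0 c a).1 q = (at0 c b).1 q := by
  show Function.update c 0 a q = Function.update c 0 b q
  rw [Function.update_of_ne h, Function.update_of_ne h]

lemma star_at0 (c : ℚ → K) {a b d : K} (hab : a ≠ b) (hbd : b ≠ d) (had : a ≠ d) :
    Star (at0 c a) (at0 c b) (at0 c d) := by
  have hne : ∀ {a b : K}, a ≠ b → at0 c a ≠ at0 c b := by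
    intro a b h h'
    apply h
    rw [← at0_0 c a, ← at0_0 c b, h']
  have hcc : ∀ {x y z : K}, x ≠ y → ¬ Cc (at0 c z) (at0 c x) (at0 c y) := by
    rintro x y z hxy ⟨q, _, _, h1, h2⟩
    by_cases hq : q = 0
    · rw [hq, at0_0, at0_0] at h1
      exact hxy h1
    · exact h2 (at0_ne c z x hq)
  exact ⟨hne hab, hne hbd, hne had, hcc hab, hcc had, hcc hbd⟩

/-- With at least three branches the split relation together with `Star` is not in FPC. -/
theorem not_inFPC_CN [Finite K] (c : ℚ → K) (hK : ∃ a b d : K, a ≠ b ∧ b ≠ d ∧ a ≠ d) :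
    ¬ InFPC (CSP (CN c)) := by
  intro h
  obtain ⟨a, b, d, hab, hbd, had⟩ := hK
  obtain ⟨ι, hi, hι⟩ := IOT_pf K c ⟨a, b, hab⟩
  obtain ⟨_, h1⟩ := (class_main (bLang_CN c) hi hι).1 h
  let 𝔄 : Str sN (Fin 3) := ⟨fun R t => R = false ∧ t = fun j : Fin 3 => j⟩
  have h2 : CSP (CN c) (Fin 3) 𝔄 := by
    refine ⟨![at0 c a, at0 c b, at0 c d], ?_⟩
    rintro R t ⟨rfl, rfl⟩
    exact star_at0 c hab hbd had
  obtain ⟨u, hu⟩ := (h1 (Fin 3) 𝔄).1 h2
  have h3 : Star (ι (u 0)) (ι (u 1)) (ι (u 2)) := hu false (fun j : Fin 3 => j) ⟨rfl, rfl⟩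
  obtain ⟨e1, e2, e3, e4, e5, e6⟩ := h3
  exact no_star (u 0) (u 1) (u 2) ⟨fun h => e1 (congrArg ι h), fun h => e2 (congrArg ι h),
    fun h => e3 (congrArg ι h), fun h => e4 ((hι _ _ _).1 h), fun h => e5 ((hι _ _ _).1 h),
    fun h => e6 ((hι _ _ _).1 h)⟩

end Pool.Agent.Work.MP_8dbde4_lc.Bra
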