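import Pool.Agent.Work.MP_8dbde4_lc.Bra.Stmts

/-!
# Item BF2: a binary first split on a set of variables
-/

set_option autoImplicit false
open Classical

namespace Pool.Agent.Work.MP_8dbde4_lc.Bra

open Pool.Agent.Work.MP_8dbde4_lc.TS
open Pool.Agent.Work.MP_8dbde4_lc.Tree (Word Agr Sp Cc SameT)
open Pool.Agent.Work.MP_8dbde4_lc.Phy (PP Hom)

namespace XBF2

/-- An enumeration of the image of `Y`. -/
theorem enum {X D : Type} [Finite D] (m : X → D) (Y : Set X) :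
    ∃ (n : ℕ) (m' : Fin n → D) (idx : Y → Fin n), Function.Injective m' ∧
      (∀ x : Y, m' (idx x) = m x) ∧ ∀ i, ∃ x : Y, idx x = i := by
  obtain ⟨n, ⟨e⟩⟩ := Finite.exists_equiv_fin (m '' Y)
  refine ⟨n, fun i => (e.symm i : D), fun x => e ⟨m x, ⟨x, x.2, rfl⟩⟩, ?_, ?_, ?_⟩
  · intro i j hij
    exact e.symm.injective (Subtype.ext hij)
  · intro x
    show ((e.symm (e ⟨m x, ⟨x, x.2, rfl⟩⟩) : m '' Y) : D) = m x
    rw [Equiv.symm_apply_apply]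
  · intro i
    obtain ⟨x, hx, hxi⟩ := (e.symm i).2
    refine ⟨⟨x, hx⟩, ?_⟩
    rw [← e.eq_symm_apply]
    exact Subtype.ext hxi

end XBF2

theorem BF2_pf : S_BF2 := by
  intro σ K c 𝔅 hB X S Y hPP hS hY
  obtain ⟨D, hD, 𝔇, m, hm⟩ := hPP
  obtain ⟨n, m', idx, hinj, hidx, hsur⟩ := XBF2.enum m Y
  have h1 : ∃ f : D → Word c, Hom 𝔇 𝔅 f := by
    obtain ⟨w, hw⟩ := hS
    obtain ⟨f, hf, -⟩ := (hm w).1 hw
    exact ⟨f, hf⟩
  have h2 : ∀ f : D → Word c, Hom 𝔇 𝔅 f → ∃ i j, f (m' i) ≠ f (m' j) := by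
    intro f hf
    obtain ⟨x, hx, y, hy, hxy⟩ := hY (fun x => f (m x)) ((hm _).2 ⟨f, hf, fun _ => rfl⟩)
    refine ⟨idx ⟨x, hx⟩, idx ⟨y, hy⟩, ?_⟩
    rw [hidx, hidx]
    exact hxy
  obtain ⟨f, hf, h, ⟨i, -, j, -, hij⟩, hbi⟩ := hB n D 𝔇 m' hinj h1 h2
  refine ⟨fun x => f (m x), (hm _).2 ⟨f, hf, fun _ => rfl⟩,
    fun x => if hx : x ∈ Y then h (idx ⟨x, hx⟩) else false, ?_, ?_⟩
  · obtain ⟨x, hx⟩ := hsur i
    obtain ⟨y, hy⟩ := hsur j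
    refine ⟨x, x.2, y, y.2, ?_⟩
    show (if hx : (x : X) ∈ Y then h (idx ⟨x, hx⟩) else false) ≠
      (if hy : (y : X) ∈ Y then h (idx ⟨y, hy⟩) else false)
    rw [dif_pos x.2, dif_pos y.2, Subtype.coe_eta, Subtype.coe_eta, hx, hy]
    exact hij
  · intro x hx y hy z hz hxy hzx
    change (if hx : x ∈ Y then h (idx ⟨x, hx⟩) else false) =
      (if hy : y ∈ Y then h (idx ⟨y, hy⟩) else false) at hxy
    change (if hz : z ∈ Y then h (idx ⟨z, hz⟩) else false) ≠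
      (if hx : x ∈ Y then h (idx ⟨x, hx⟩) else false) at hzx
    rw [dif_pos hx, dif_pos hy] at hxy
    rw [dif_pos hz, dif_pos hx] at hzx
    have h3 := hbi (idx ⟨x, hx⟩) (Set.mem_univ _) (idx ⟨y, hy⟩) (Set.mem_univ _)
      (idx ⟨z, hz⟩) (Set.mem_univ _) hxy hzx
    change Cc (f (m' (idx ⟨z, hz⟩))) (f (m' (idx ⟨x, hx⟩))) (f (m' (idx ⟨y, hy⟩))) at h3
    rw [hidx, hidx, hidx] at h3
    exact h3

end Pool.Agent.Work.MP_8dbde4_lc.Bra
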