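import Pool.Agent.Work.MP_8dbde4_lc.Bra.Stmts

/-!
Item BFS of the block Bra: a binary first split exists.
-/

set_option autoImplicit false
open Classical

namespace Pool.Agent.Work.MP_8dbde4_lc.Bra

open Pool.Agent.Work.MP_8dbde4_lc.TS
open Pool.Agent.Work.MP_8dbde4_lc.Tree (Word Agr Sp Cc SameT Fam Gad El anch trip Den row BFSys)
open Pool.Agent.Work.MP_8dbde4_lc.Loc (MLang lang JJ GS IsC mk Pair fam Tie core)
open Pool.Agent.Work.MP_8dbde4_lc.Phy (PP Hom)
open Pool.Agent.Work.MP_8dbde4_lc.HP (add adds)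

namespace XBFS

/-- A finite set with an injective map from `Fin n` is `Fin n` together with finitely many other
elements. -/
lemma exists_equiv {n : ℕ} {D : Type} [Finite D] (m : Fin n → D) (hm : Function.Injective m) :
    ∃ (N : ℕ) (e : Fin n ⊕ Fin N ≃ D), ∀ i, e (Sum.inl i) = m i := by
  obtain ⟨N, ⟨f⟩⟩ := Finite.exists_equiv_fin ((Set.range m)ᶜ : Set D)
  refine ⟨N, (Equiv.sumCongr (Equiv.ofInjective m hm) f.symm).trans
    (Equiv.Set.sumCompl (Set.range m)), fun i => ?_⟩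
  simp

variable {σ : Sig} {B : Type}

/-- Primitive positive definitions with an injective map of the coordinates. -/
lemma pp_loc {𝔅 : Str σ B} {n : ℕ} {D : Type} [Finite D] (𝔇 : Str σ D) (m : Fin n → D)
    (hm : Function.Injective m) :
    Loc.PP 𝔅 (fun v : Fin n → B => ∃ f : D → B, Hom 𝔇 𝔅 f ∧ ∀ i, v i = f (m i)) := by
  obtain ⟨N, e, he⟩ := exists_equiv m hm
  refine ⟨N, ⟨fun R s => 𝔇.rel R (fun j => e (s j))⟩, fun t => ⟨?_, ?_⟩⟩
  · rintro ⟨f, hf, ht⟩
    refine ⟨fun k => f (e (Sum.inr k)), fun R s hs => ?_⟩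
    have h1 := hf R (fun j => e (s j)) hs
    have h2 : (fun j => Sum.elim t (fun k => f (e (Sum.inr k))) (s j)) =
        fun j => f (e (s j)) := by
      funext j
      rcases s j with i | k
      · show t i = f (e (Sum.inl i))
        rw [he, ht]
      · rfl
    rw [h2]
    exact h1
  · rintro ⟨u, hu⟩
    refine ⟨fun d => Sum.elim t u (e.symm d), fun R s hs => ?_, fun i => ?_⟩
    · refine hu R (fun j => e.symm (s j)) ?_
      show 𝔇.rel R (fun j => e (e.symm (s j)))
      simpa using hs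
    · have h3 : e.symm (m i) = Sum.inl i := by
        rw [← he i, Equiv.symm_apply_apply]
      show t i = Sum.elim t u (e.symm (m i))
      rw [h3]
      rfl

/-- Definitions which do not use the additional relation. -/
lemma pp_adds {𝔅 : Str σ B} {n r : ℕ} {S : (Fin n → B) → Prop} (h : Loc.PP 𝔅 S)
    (T : (Fin r → B) → Prop) : Loc.PP (adds 𝔅 T) S := by
  obtain ⟨N, 𝔇, h𝔇⟩ := h
  refine ⟨N, adds 𝔇 (fun _ => False), fun t => (h𝔇 t).trans ⟨?_, ?_⟩⟩
  · rintro ⟨u, hu⟩
    refine ⟨u, fun R s hs => ?_⟩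
    rcases R with _ | R
    · exact absurd hs id
    · exact hu R s hs
  · rintro ⟨u, hu⟩
    exact ⟨u, fun R s hs => hu (some R) s hs⟩

lemma nonempty_word {K : Type} (c : ℚ → K) : Nonempty (Word c) :=
  ⟨⟨c, by simp⟩⟩

/-- The instance with a single constraint. -/
def inst (σ : Sig) (n : ℕ) : Str (add σ n) (Fin n) where
  rel
    | none => fun t => t = fun i => i
    | some _ => fun _ => False

end XBFS

open XBFS in
theorem BFS_pf : S_BFS := by
  intro hHOM hIPP hRES1 hLOC hN σ K _ c 𝔅 hB hc hCC hNP n D _ 𝔇 m hm hex hne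
  obtain ⟨S, hS⟩ : ∃ S : (Fin n → Word c) → Prop,
      S = fun v : Fin n → Word c => ∃ f : D → Word c, Hom 𝔇 𝔅 f ∧ ∀ i, v i = f (m i) := ⟨_, rfl⟩
  haveI := nonempty_word c
  have hSpp : Loc.PP 𝔅 S := by
    rw [hS]
    exact pp_loc 𝔇 m hm
  have hSinv : ∀ v w : Fin n → Word c, SameT v w → S v → S w := by
    refine hIPP hHOM σ K c 𝔅 hB hc n S ⟨D, inferInstance, 𝔇, m, fun v => ?_⟩
    rw [hS]
  have hB' : Loc.Inv (adds (adds 𝔅 (CC (c := c))) S) := by
    intro R v w hvw hv
    rcases R with _ | R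
    · exact hSinv v w hvw hv
    · exact Loc.inv_adds hB R v w hvw hv
  have hIC : IsC (adds (adds 𝔅 (CC (c := c))) S) (some none) := ⟨rfl, fun _ => Iff.rfl⟩
  have hGS : GS (lang (adds (adds 𝔅 (CC (c := c))) S) hB') := by
    by_contra hg
    have h1 := hN _ K c _ hB' (some none) hIC hg
    exact hNP (Loc.pair_pp hCC (Loc.pair_pp (pp_adds hSpp _) h1))
  obtain ⟨f₀, hf₀⟩ := hex
  have hcsp : CSP ((lang (adds (adds 𝔅 (CC (c := c))) S) hB').str c) (Fin n)
      (inst (add σ 3) n) := by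
    refine ⟨fun i => f₀ (m i), fun R t ht => ?_⟩
    rcases R with _ | R
    · refine (hLOC _ K c (adds (adds 𝔅 (CC (c := c))) S) hB').1 none _ ?_
      have ht' : t = fun i => i := ht
      rw [ht']
      show S (fun i => f₀ (m i))
      rw [hS]
      exact ⟨f₀, hf₀, fun _ => rfl⟩
    · exact absurd ht id
  have hRes := hRES1 _ K _ c (Fin n) (inst (add σ 3) n) hcsp
  have hmask : ∀ i : Fin n, Loc.mask (Set.univ : Set (Fin n)) (fun i : Fin n => i) i = true := by
    intro i
    simp [Loc.mask]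
  have hStr : Loc.HasStrict (lang (adds (adds 𝔅 (CC (c := c))) S) hB') (inst (add σ 3) n)
      Set.univ := by
    refine ⟨none, fun i => i, rfl, fun w hw => ?_⟩
    have hw' : S w := hw
    rw [hS] at hw'
    obtain ⟨f, hf, hwf⟩ := hw'
    obtain ⟨i, j, hij⟩ := hne f hf
    refine ⟨i, j, hmask i, hmask j, ?_⟩
    rw [hwf i, hwf j]
    exact hij
  obtain ⟨a, b, hgood, h, hstep, hab, x, _, y, _, hxy⟩ :=
    hGS (Fin n) (inst (add σ 3) n) Set.univ hRes hStr
  obtain ⟨w, hw, q, hq1, hq2⟩ := hstep none (fun i => i) rfl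
  have hw' : S w := hw
  rw [hS] at hw'
  obtain ⟨f, hf, hwf⟩ := hw'
  have hwf' : (fun i => f (m i)) = w := by
    funext i
    exact (hwf i).symm
  have hiff : ∀ x y : Fin n, decide (h x = a) = decide (h y = a) ↔ h x = h y := by
    intro x y
    have hne := hgood.1
    rcases hab x trivial with h1 | h1 <;> rcases hab y trivial with h2 | h2 <;>
      simp [h1, h2, hne, hne.symm]
  refine ⟨f, hf, fun i => decide (h i = a), ?_⟩
  rw [hwf']
  refine ⟨⟨x, trivial, y, trivial, fun h1 => hxy ((hiff x y).1 h1)⟩, ?_⟩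
  intro x _ y _ z _ h1 h2
  have h3 : h x = h y := (hiff x y).1 h1
  have h4 : h z ≠ h x := fun h5 => h2 ((hiff z x).2 h5)
  refine ⟨q, hq1 z x (hmask z) (hmask x), hq1 z y (hmask z) (hmask y), ?_, ?_⟩
  · exact (hq2 x (hmask x)).trans (h3.trans (hq2 y (hmask y)).symm)
  · intro h6
    exact h4 ((hq2 z (hmask z)).symm.trans (h6.trans (hq2 x (hmask x))))

end Pool.Agent.Work.MP_8dbde4_lc.Bra
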