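import Pool.Agent.Work.MP_8dbde4_lc.Bra.Stmts

/-! Item BIN: binary members of primitive positive definable sets. -/

set_option autoImplicit false
open Classical

namespace Pool.Agent.Work.MP_8dbde4_lc.Bra

open Pool.Agent.Work.MP_8dbde4_lc.TS
open Pool.Agent.Work.MP_8dbde4_lc.Tree (Word Agr Sp Cc SameT)
open Pool.Agent.Work.MP_8dbde4_lc.Phy (PP Hom)

namespace XBIN

theorem bool3 : ∀ a b d : Bool, a ≠ b → a ≠ d → b = d := by decide

theorem congrP {σ : Sig} {B X : Type} {𝔅 : Str σ B} {S S' : (X → B) → Prop} (h : PP 𝔅 S)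
    (e : ∀ v, S v ↔ S' v) : PP 𝔅 S' := by
  obtain ⟨D, hD, 𝔇, m, H⟩ := h
  exact ⟨D, hD, 𝔇, m, fun v => (e v).symm.trans (H v)⟩

/-- the members which are constant on `Y` -/
theorem ppConst (hB : Phy.S_PPB) {σ : Sig} {B X : Type} [Finite X] {𝔅 : Str σ B}
    {S : (X → B) → Prop} (hS : PP 𝔅 S) (Y : Set X) :
    PP 𝔅 (fun v => S v ∧ ∀ x ∈ Y, ∀ y ∈ Y, v x = v y) := by
  obtain ⟨-, h2, -, -, h5, -, h7⟩ := hB σ B 𝔅
  have h := h7 X {t : X × X // t.1 ∈ Y ∧ t.2 ∈ Y} (fun t v => v t.1.1 = v t.1.2)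
    (fun t => h5 X t.1.1 t.1.2)
  refine congrP (h2 X S _ hS h) ?_
  intro v
  refine and_congr_right fun _ => ?_
  constructor
  · intro H x hx y hy
    exact H ⟨(x, y), hx, hy⟩
  · intro H t
    exact H _ t.2.1 _ t.2.2

/-- the members with a given first split on `Y` -/
theorem ppBi (hB : Phy.S_PPB) {σ : Sig} {K : Type} {c : ℚ → K} {𝔅 : Str σ (Word c)}
    (hC : PP 𝔅 (CC (c := c))) {X : Type} [Finite X] {S : (X → Word c) → Prop} (hS : PP 𝔅 S)
    (Y : Set X) (h : X → Bool) (hn : ∃ x ∈ Y, ∃ y ∈ Y, h x ≠ h y) :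
    PP 𝔅 (fun v => S v ∧ Bi Y v h) := by
  obtain ⟨-, h2, h3, -, -, -, h7⟩ := hB σ (Word c) 𝔅
  have h := h7 X {t : X × X × X // t.1 ∈ Y ∧ t.2.1 ∈ Y ∧ t.2.2 ∈ Y ∧ h t.1 = h t.2.1 ∧
      h t.2.2 ≠ h t.1}
    (fun t v => Cc (v t.1.2.2) (v t.1.1) (v t.1.2.1)) (fun t => by
      refine congrP (h3 (Fin 3) X (CC (c := c)) ![t.1.2.2, t.1.1, t.1.2.1] hC) ?_
      intro v
      simp [CC, Loc.CC])
  refine congrP (h2 X S _ hS h) ?_
  intro v
  refine and_congr_right fun _ => ?_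
  constructor
  · intro H
    exact ⟨hn, fun x hx y hy z hz e1 e2 => H ⟨(x, y, z), hx, hy, hz, e1, e2⟩⟩
  · intro H t
    exact H.2 _ t.2.1 _ t.2.2.1 _ t.2.2.2.1 t.2.2.2.2.1 t.2.2.2.2.2

end XBIN

open XBIN in
theorem BIN_pf : S_BIN := by
  intro hB σ K c 𝔅 hC X _ hbf
  have claim : ∀ n : ℕ, ∀ (Y : Set X), Y.ncard = n → ∀ S : (X → Word c) → Prop, PP 𝔅 S →
      (∃ w, S w) → ∃ S' : (X → Word c) → Prop, PP 𝔅 S' ∧ (∃ w, S' w) ∧ (∀ w, S' w → S w) ∧
        ∀ w, S' w → BinOn Y w := by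
    intro n
    induction n using Nat.strong_induction_on with
    | _ n ih =>
      intro Y hY S hS hne
      by_cases hc : ∃ w, S w ∧ ∀ x ∈ Y, ∀ y ∈ Y, w x = w y
      · obtain ⟨w, hw, hw2⟩ := hc
        refine ⟨_, ppConst hB hS Y, ⟨w, hw, hw2⟩, fun w h => h.1, ?_⟩
        rintro w ⟨-, h⟩ x hx y hy z hz
        exact Or.inl ⟨h x hx y hy, h y hy z hz⟩
      · push Not at hc
        obtain ⟨w, hw, h, hbi⟩ := hbf S Y hS hne hc
        obtain ⟨⟨a, ha, b, hb, hab⟩, -⟩ := id hbi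
        have hlt : ∀ β : Bool, ({x | x ∈ Y ∧ h x = β} : Set X).ncard < n := by
          intro β
          rw [← hY]
          apply Set.ncard_lt_ncard _ (Set.toFinite Y)
          refine ⟨fun x hx => hx.1, fun hsub => ?_⟩
          have h1 := (hsub ha).2
          have h2 := (hsub hb).2
          exact hab (h1.trans h2.symm)
        obtain ⟨S₂, hS₂, hne₂, hs₂, hb₂⟩ := ih _ (hlt false) _ rfl _
          (ppBi hB hC hS Y h ⟨a, ha, b, hb, hab⟩) ⟨w, hw, hbi⟩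
        obtain ⟨S₃, hS₃, hne₃, hs₃, hb₃⟩ := ih _ (hlt true) _ rfl S₂ hS₂ hne₂
        refine ⟨S₃, hS₃, hne₃, fun v hv => (hs₂ v (hs₃ v hv)).1, ?_⟩
        intro v hv x hx y hy z hz
        have h0 := hb₂ v (hs₃ v hv)
        have h1 := hb₃ v hv
        have h2 := (hs₂ v (hs₃ v hv)).2.2
        by_cases exy : h x = h y
        · by_cases exz : h z = h x
          · cases hβ : h x with
            | false =>
              exact h0 x ⟨hx, hβ⟩ y ⟨hy, exy.symm.trans hβ⟩ z ⟨hz, exz.trans hβ⟩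
            | true =>
              exact h1 x ⟨hx, hβ⟩ y ⟨hy, exy.symm.trans hβ⟩ z ⟨hz, exz.trans hβ⟩
          · exact Or.inr (Or.inl (h2 x hx y hy z hz exy exz))
        · by_cases exz : h x = h z
          · exact Or.inr (Or.inr (Or.inl (h2 x hx z hz y hy exz (fun e => exy e.symm))))
          · have eyz : h y = h z := bool3 _ _ _ exy exz
            exact Or.inr (Or.inr (Or.inr (h2 y hy z hz x hx eyz exy)))
  intro S hS hne
  obtain ⟨S', -, ⟨w, hw⟩, h1, h2⟩ := claim _ Set.univ rfl S hS hne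
  exact ⟨w, h1 w hw, h2 w hw⟩

end Pool.Agent.Work.MP_8dbde4_lc.Bra
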