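import Pool.Agent.Work.MP_8dbde4_lc.Bra.Stmts

/-!
# Block [8dbde4 BRA], item EMB: binary tuples are found in the binary tree
-/

set_option autoImplicit false
open Classical

namespace Pool.Agent.Work.MP_8dbde4_lc.Bra

open Pool.Agent.Work.MP_8dbde4_lc.Tree (Word Agr Sp Cc SameT)

namespace XEMB

variable {K : Type} {c : ℚ → K} {X : Type}

theorem some_congr {A B : Set X} (h : A = B) (hA : A.Nonempty) (hB : B.Nonempty) :
    hA.some = hB.some := by
  subst h
  rfl

/-- the first difference of two words -/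
theorem exists_first {K' : Type} {c' : ℚ → K'} {v v' : Word c'} {q : ℚ} (h : v.1 q ≠ v'.1 q) :
    ∃ q₀, q₀ ≤ q ∧ Agr v v' q₀ ∧ v.1 q₀ ≠ v'.1 q₀ := by
  have hfin : {x | v.1 x ≠ v'.1 x ∧ x ≤ q}.Finite := by
    refine (v.2.union v'.2).subset ?_
    rintro x ⟨hx, -⟩
    by_contra hcon
    simp only [Set.mem_union, Set.mem_setOf_eq, not_or, not_not] at hcon
    exact hx (hcon.1.trans hcon.2.symm)
  obtain ⟨q₀, hq₀, hmin⟩ := hfin.toFinset.exists_min_image id
    ⟨q, by rw [Set.Finite.mem_toFinset]; exact ⟨h, le_refl q⟩⟩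
  rw [Set.Finite.mem_toFinset] at hq₀
  refine ⟨q₀, hq₀.2, fun q' hq' => ?_, hq₀.1⟩
  by_contra hne
  have := hmin q' (by rw [Set.Finite.mem_toFinset]; exact ⟨hne, hq'.le.trans hq₀.2⟩)
  exact absurd hq' (not_lt.2 this)

theorem agr_symm {x y : Word c} {q : ℚ} (h : Agr x y q) : Agr y x q :=
  fun q' hq' => (h q' hq').symm

theorem agr_trans {x y z : Word c} {q : ℚ} (h : Agr x y q) (h' : Agr y z q) : Agr x z q :=
  fun q' hq' => (h q' hq').trans (h' q' hq')

/-- the words which agree with `w i` below `q` -/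
def A (w : X → Word c) (i : X) (q : ℚ) : Set X := {j | Agr (w j) (w i) q}

theorem A_ne (w : X → Word c) (i : X) (q : ℚ) : (A w i q).Nonempty := ⟨i, fun _ _ => rfl⟩

/-- the reference word -/
noncomputable def rf (w : X → Word c) (i : X) (q : ℚ) : X := (A_ne w i q).some

theorem rf_agr (w : X → Word c) (i : X) (q : ℚ) : Agr (w (rf w i q)) (w i) q :=
  (A_ne w i q).some_mem

theorem rf_congr {w : X → Word c} {i i' : X} {q : ℚ} (h : Agr (w i) (w i') q) :
    rf w i q = rf w i' q := by
  refine some_congr ?_ _ _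
  ext j
  exact ⟨fun hj => agr_trans hj h, fun hj => agr_trans hj (agr_symm h)⟩

/-- the binary words -/
noncomputable def uf [Finite X] (w : X → Word c) (i : X) : Word c₂ :=
  ⟨fun q => decide ((w i).1 q ≠ (w (rf w i q)).1 q), by
    have hfin : (⋃ j : X, {q | (w j).1 q ≠ c q}).Finite := Set.finite_iUnion fun j => (w j).2
    refine hfin.subset ?_
    intro q hq
    by_contra hcon
    rw [Set.mem_iUnion, not_exists] at hcon
    have h1 : ∀ j, (w j).1 q = c q := fun j => by
      by_contra hne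
      exact hcon j hne
    apply hq
    change decide ((w i).1 q ≠ (w (rf w i q)).1 q) = false
    rw [h1, h1]
    simp⟩

theorem uf_apply [Finite X] (w : X → Word c) (i : X) (q : ℚ) :
    (uf w i).1 q = decide ((w i).1 q ≠ (w (rf w i q)).1 q) := rfl

/-- three words which split at one place with three letters -/
theorem no_three {x y z : Word c} {q : ℚ} (h1 : Agr x y q) (h2 : Agr x z q)
    (hxy : x.1 q ≠ y.1 q) (hxz : x.1 q ≠ z.1 q) (hyz : y.1 q ≠ z.1 q) : ¬ Cc z x y := by
  rintro ⟨q', h3, h4, h5, h6⟩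
  rcases lt_trichotomy q' q with h | h | h
  · exact h6 (h2 q' h).symm
  · rw [h] at h5
    exact hxy h5
  · exact hxz (h3 q h).symm

variable [Finite X] {w : X → Word c}

theorem key (hB : BinOn Set.univ w) {i i' : X} {q : ℚ} (h : Agr (w i) (w i') q) :
    (uf w i).1 q = (uf w i').1 q ↔ (w i).1 q = (w i').1 q := by
  rw [uf_apply, uf_apply, rf_congr h]
  constructor
  · intro heq
    by_contra hne
    have hr := rf_agr w i' q
    generalize rf w i' q = r at heq hr
    by_cases h1 : (w i).1 q = (w r).1 q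
    · by_cases h2 : (w i').1 q = (w r).1 q
      · exact hne (h1.trans h2.symm)
      · simp [h1, h2] at heq
    · by_cases h2 : (w i').1 q = (w r).1 q
      · simp [h1, h2] at heq
      · have hri : Agr (w r) (w i) q := agr_trans hr (agr_symm h)
        rcases hB r trivial i trivial i' trivial with h3 | h3 | h3 | h3
        · exact h1 (by rw [h3.1])
        · exact no_three hri hr (Ne.symm h1) (Ne.symm h2) hne h3
        · exact no_three hr hri (Ne.symm h2) (Ne.symm h1) (Ne.symm hne) h3
        · exact no_three h (agr_symm hri) hne h1 h2 h3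
  · intro heq
    rw [heq]

theorem key2 (hB : BinOn Set.univ w) (i i' : X) (q : ℚ) :
    Agr (w i) (w i') q ↔ Agr (uf w i) (uf w i') q := by
  constructor
  · intro h q' hq'
    exact (key hB fun q'' hq'' => h q'' (hq''.trans hq')).2 (h q' hq')
  · intro h q' hq'
    by_contra hne
    obtain ⟨q₀, h1, h2, h3⟩ := exists_first hne
    exact h3 ((key hB h2).1 (h q₀ (h1.trans_lt hq')))

end XEMB

open XEMB in
theorem EMB_pf : S_EMB := by
  intro K c X _ w hB
  refine ⟨uf w, fun x y => ⟨fun h => ?_, fun h => ?_⟩, fun x y z => ⟨?_, ?_⟩⟩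
  · apply Subtype.ext
    funext q
    exact (key hB fun q' _ => by rw [h]).2 (by rw [h])
  · apply Subtype.ext
    funext q
    by_contra hne
    obtain ⟨q₀, -, h2, h3⟩ := exists_first hne
    exact h3 ((key hB h2).1 (by rw [h]))
  · rintro ⟨q, h1, h2, h3, h4⟩
    have h5 := agr_trans (agr_symm h1) h2
    exact ⟨q, (key2 hB _ _ _).1 h1, (key2 hB _ _ _).1 h2, (key hB h5).2 h3,
      fun h => h4 ((key hB h1).1 h)⟩
  · rintro ⟨q, h1, h2, h3, h4⟩
    have h1' := (key2 hB _ _ _).2 h1
    have h2' := (key2 hB _ _ _).2 h2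
    have h5 := agr_trans (agr_symm h1') h2'
    exact ⟨q, h1', h2', (key hB h5).1 h3, fun h => h4 ((key hB h1').2 h)⟩

end Pool.Agent.Work.MP_8dbde4_lc.Bra
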