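import Pool.Agent.Work.MP_8dbde4_lc.Bra.Stmts

/-!
# Item IOT: the embedding of the binary tree into the tree over `c`
-/

set_option autoImplicit false
open Classical

namespace Pool.Agent.Work.MP_8dbde4_lc.Bra

open Pool.Agent.Work.MP_8dbde4_lc.TS
open Pool.Agent.Work.MP_8dbde4_lc.Tree (Word Agr Sp Cc SameT)

namespace XIOT

/-- the letters of the image -/
noncomputable def lt {K : Type} (c : ℚ → K) (φ : K → K) (x : ℚ → Bool) (q : ℚ) : K :=
  if x q = true then φ (c q) else c q

theorem lt_iff {K : Type} (c : ℚ → K) (φ : K → K) (hφ : ∀ k, φ k ≠ k) (x y : ℚ → Bool) (q : ℚ) :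
    lt c φ x q = lt c φ y q ↔ x q = y q := by
  unfold lt
  have h := hφ (c q)
  cases hx : x q <;> cases hy : y q
  · simp
  · simp only [Bool.false_eq_true, if_false, if_true]
    exact ⟨fun h' => absurd h'.symm h, fun h' => absurd h' (by decide)⟩
  · simp only [Bool.false_eq_true, if_false, if_true]
    exact ⟨fun h' => absurd h' h, fun h' => absurd h' (by decide)⟩
  · simp

/-- the embedding -/
noncomputable def io {K : Type} (c : ℚ → K) (φ : K → K) (x : Word c₂) : Word c :=
  ⟨lt c φ x.1, by
    apply x.2.subset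
    intro q hq
    show x.1 q ≠ c₂ q
    intro h
    apply hq
    show lt c φ x.1 q = c q
    unfold lt
    rw [h]
    simp [c₂]⟩

theorem io_iff {K : Type} (c : ℚ → K) (φ : K → K) (hφ : ∀ k, φ k ≠ k) (x y : Word c₂) (q : ℚ) :
    (io c φ x).1 q = (io c φ y).1 q ↔ x.1 q = y.1 q :=
  lt_iff c φ hφ x.1 y.1 q

end XIOT

open XIOT

theorem IOT_pf : S_IOT := by
  rintro K c ⟨a, b, hab⟩
  let φ : K → K := fun k => if k = a then b else a
  have hφ : ∀ k, φ k ≠ k := by
    intro k
    show (if k = a then b else a) ≠ k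
    by_cases h : k = a
    · rw [if_pos h, h]
      exact hab.symm
    · rw [if_neg h]
      exact fun h' => h h'.symm
  refine ⟨io c φ, ?_, ?_⟩
  · intro x y hxy
    apply Subtype.ext
    funext q
    rw [← io_iff c φ hφ x y q, hxy]
  · intro x y z
    unfold Cc Agr
    simp only [io_iff c φ hφ, ne_eq]

end Pool.Agent.Work.MP_8dbde4_lc.Bra
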