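import Pool.Agent.Work.MP_8dbde4_lc.Bra.Stmts

set_option autoImplicit false
open Classical

namespace Pool.Agent.Work.MP_8dbde4_lc.Bra

open Pool.Agent.Work.MP_8dbde4_lc.TS
open Pool.Agent.Work.MP_8dbde4_lc.Tree (Word Agr Sp Cc SameT)
open Pool.Agent.Work.MP_8dbde4_lc.Phy (PP Hom)

theorem IPP_pf : S_IPP := by
  intro hHOM σ K _ c 𝔅 hB hc n S hS v w hvw hSv
  obtain ⟨D, hD, 𝔇, m, hm⟩ := hS
  obtain ⟨f, hf, hfm⟩ := (hm v).1 hSv
  set F : Word c → Word c := fun a => if h : ∃ i, v i = a then w h.choose else a with hF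
  have hFv : ∀ i, F (v i) = w i := by
    intro i
    have h : ∃ j, v j = v i := ⟨i, rfl⟩
    have h1 : F (v i) = w h.choose := by
      rw [hF]
      exact dif_pos h
    rw [h1]
    exact (hvw.1 _ _).1 h.choose_spec
  have hmem : ∀ a, a ∈ Finset.univ.image v ↔ ∃ i, v i = a := by
    intro a
    simp
  obtain ⟨g, hg1, hg2⟩ := hHOM σ K c 𝔅 hB hc (Finset.univ.image v) F (by
    intro a ha b hb hab
    rw [Finset.mem_coe, hmem] at ha hb
    obtain ⟨i, rfl⟩ := ha
    obtain ⟨j, rfl⟩ := hb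
    rw [hFv, hFv] at hab
    exact (hvw.1 i j).2 hab) (by
    intro R t ht
    have ht' : ∀ j, ∃ i, v i = t j := fun j => (hmem _).1 (ht j)
    choose e he using ht'
    obtain rfl : (fun j => v (e j)) = t := funext he
    have hFt : (fun j => F (v (e j))) = fun j => w (e j) := funext fun j => hFv (e j)
    rw [hFt]
    rcases R with R | p | u
    · have h1 : SameT (fun j => v (e j)) (fun j => w (e j)) :=
        ⟨fun i j => hvw.1 _ _, fun i j a b => hvw.2.1 _ _ _ _, fun i j k => hvw.2.2 _ _ _⟩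
      have h2 : SameT (fun j => w (e j)) (fun j => v (e j)) :=
        ⟨fun i j => (hvw.1 _ _).symm, fun i j a b => (hvw.2.1 _ _ _ _).symm,
          fun i j k => (hvw.2.2 _ _ _).symm⟩
      exact ⟨hB R _ _ h1, hB R _ _ h2⟩
    · exact hvw.2.1 _ _ _ _
    · exact hvw.2.2 _ _ _)
  refine (hm w).2 ⟨fun d => g (f d), ?_, ?_⟩
  · intro R t ht
    exact (hg1 (.inl R) (fun j => f (t j))).1 (hf R t ht)
  · intro x
    rw [← hFv x, ← hg2 (v x) ((hmem _).2 ⟨x, rfl⟩), hfm x]

end Pool.Agent.Work.MP_8dbde4_lc.Bra
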