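import Pool.Agent.Work.MP_8dbde4_lc.Bra.Stmts

set_option autoImplicit false
open Classical

namespace Pool.Agent.Work.MP_8dbde4_lc.Bra

open Pool.Agent.Work.MP_8dbde4_lc.TS
open Pool.Agent.Work.MP_8dbde4_lc.Tree (Word Agr Sp Cc SameT)

theorem MOV_pf : S_MOV := by
  intro K c n w V π Δ hπ hVw hw hV
  have ha : ∀ s ∈ Δ, ∀ x y, (V x).1 (π s) = (V y).1 (π s) ↔ (w x).1 s = (w y).1 s := by
    intro s hs x y
    rw [hVw s hs x, hVw s hs y]
  have hagr : ∀ s, ∀ x y, Agr (w x) (w y) s ↔ Agr (V x) (V y) (π s) := by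
    intro s x y
    constructor
    · intro h r hr
      by_cases h1 : ∃ s' ∈ Δ, π s' = r
      · obtain ⟨s', hs', rfl⟩ := h1
        exact (ha s' hs' x y).2 (h s' (hπ.lt_iff_lt.1 hr))
      · exact hV r (fun h2 => h1 h2) x y
    · intro h s' hs'
      by_cases h1 : s' ∈ Δ
      · exact (ha s' h1 x y).1 (h _ (hπ hs'))
      · exact hw s' h1 x y
  have hpl : ∀ q x y, (V x).1 q ≠ (V y).1 q → ∃ s ∈ Δ, π s = q := by
    intro q x y h
    by_contra h1
    exact h (hV q h1 x y)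
  have hpl2 : ∀ s x y, (w x).1 s ≠ (w y).1 s → s ∈ Δ := by
    intro s x y h
    by_contra h1
    exact h (hw s h1 x y)
  refine ⟨fun i j => ?_, fun i j a b => ?_, fun i j k => ?_⟩
  · constructor
    · intro h
      apply Subtype.ext
      funext q
      by_contra h1
      obtain ⟨s, hs, rfl⟩ := hpl q i j h1
      exact h1 ((ha s hs i j).2 (by rw [h]))
    · intro h
      apply Subtype.ext
      funext s
      by_contra h1
      exact h1 ((ha s (hpl2 s i j h1) i j).1 (by rw [h]))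
  · constructor
    · rintro ⟨q, h1, h2, h3, h4⟩
      have hq : q ∈ Δ := hpl2 q i j (by rw [h2, h3]; exact h4)
      exact ⟨π q, (hagr q i j).1 h1, by rw [hVw q hq i, h2], by rw [hVw q hq j, h3], h4⟩
    · rintro ⟨q, h1, h2, h3, h4⟩
      obtain ⟨s, hs, rfl⟩ := hpl q i j (by rw [h2, h3]; exact h4)
      exact ⟨s, (hagr s i j).2 h1, by rw [← hVw s hs i, h2], by rw [← hVw s hs j, h3], h4⟩
  · constructor
    · rintro ⟨q, h1, h2, h3, h4⟩
      have hq : q ∈ Δ := hpl2 q i j h4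
      exact ⟨π q, (hagr q i j).1 h1, (hagr q i k).1 h2, (ha q hq j k).2 h3,
        fun h5 => h4 ((ha q hq i j).1 h5)⟩
    · rintro ⟨q, h1, h2, h3, h4⟩
      obtain ⟨s, hs, rfl⟩ := hpl q i j h4
      exact ⟨s, (hagr s i j).2 h1, (hagr s i k).2 h2, (ha s hs j k).1 h3,
        fun h5 => h4 ((ha s hs i j).2 h5)⟩

end Pool.Agent.Work.MP_8dbde4_lc.Bra
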