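import Pool.Agent.Work.MP_8dbde4_lc.Bra.Stmts
import Pool.Agent.Work.MP_8dbde4_lc.Tree.I_OPE

/-!
One-point extension for finitely many letters (S_OPK).
-/

set_option autoImplicit false
open Classical

namespace Pool.Agent.Work.MP_8dbde4_lc.Bra

open Pool.Agent.Work.MP_8dbde4_lc.TS
open Pool.Agent.Work.MP_8dbde4_lc.Tree (Word Agr Sp Cc SameT)
open Pool.Agent.Work.MP_8dbde4_lc.Tree.XOPE

namespace XOPK

variable {K : Type} {c : ℚ → K}

/-- Extension by a new pair whose splits correspond. -/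
lemma ext_step {X : Type} {w f : X → Word c} (hF : Same w f) {x y : Word c}
    {d e : X → ℚ} (hd : ∀ s, FS x (w s) (d s)) (he : ∀ s, FS y (f s) (e s))
    (hO : ∀ s t, d s < d t ↔ e s < e t)
    (hL : ∀ s t, d s = d t → ((w s).1 (d s) = (w t).1 (d s) ↔ (f s).1 (e s) = (f t).1 (e s))) :
    Same (fun o : Option X => o.elim x w) (fun o : Option X => o.elim y f) := by
  have hEq : ∀ s t, d s = d t ↔ e s = e t := by
    intro s t
    have h1 := hO s t
    have h2 := hO t s
    constructor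
    · intro h
      rcases lt_trichotomy (e s) (e t) with h3 | h3 | h3
      · exact absurd (h1.2 h3) (by rw [h]; exact lt_irrefl _)
      · exact h3
      · exact absurd (h2.2 h3) (by rw [h]; exact lt_irrefl _)
    · intro h
      rcases lt_trichotomy (d s) (d t) with h3 | h3 | h3
      · exact absurd (h1.1 h3) (by rw [h]; exact lt_irrefl _)
      · exact h3
      · exact absurd (h2.1 h3) (by rw [h]; exact lt_irrefl _)
  have hA : ∀ s t, Cc x (w s) (w t) ↔ Cc y (f s) (f t) := by
    intro s t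
    rw [cc_eq (hd s) (hd t), cc_eq (he s) (he t)]
    constructor
    · rintro ⟨h1, h2⟩
      exact ⟨(hEq s t).1 h1, (hL s t h1).1 h2⟩
    · rintro ⟨h1, h2⟩
      have h1' := (hEq s t).2 h1
      exact ⟨h1', (hL s t h1').2 h2⟩
  have hB : ∀ s t, Cc (w s) x (w t) ↔ Cc (f s) y (f t) := by
    intro s t
    rw [cc_lt (hd s).symm (hd t), cc_lt (he s).symm (he t)]
    exact hO s t
  refine ⟨?_, ?_⟩
  · intro a b
    rcases a with _ | a <;> rcases b with _ | b
    · exact iff_of_true rfl rfl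
    · exact iff_of_false (hd b).ne (he b).ne
    · exact iff_of_false (fun h => (hd a).ne h.symm) (fun h => (he a).ne h.symm)
    · exact hF.1 a b
  · intro a b z
    rcases z with _ | z <;> rcases a with _ | a <;> rcases b with _ | b
    · exact iff_of_false cc_self_left cc_self_left
    · exact iff_of_false cc_self_left cc_self_left
    · exact iff_of_false cc_self_right cc_self_right
    · exact hA a b
    · exact iff_of_true (cc_same.2 (hd z).ne.symm) (cc_same.2 (he z).ne.symm)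
    · exact hB z b
    · show Cc (w z) (w a) x ↔ Cc (f z) (f a) y
      rw [cc_comm, cc_comm (x := f a)]
      exact hB z a
    · exact hF.2 a b z

/-- The final construction. -/
lemma fin_step {X : Type} {w f : X → Word c} (hF : Same w f) {x : Word c}
    {d : X → ℚ} (hd : ∀ s, FS x (w s) (d s)) (s₀ : X) (hmax : ∀ s, d s ≤ d s₀) (q' : ℚ) (a : K)
    (H0 : ∀ s, d s = d s₀ → Agr (f s) (f s₀) q' ∧ (f s).1 q' ≠ a)
    (H1 : ∀ s t, d s = d s₀ → d t = d s₀ →
      ((w s).1 (d s₀) = (w t).1 (d s₀) ↔ (f s).1 q' = (f t).1 q'))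
    (H2 : ∀ s, d s < d s₀ → ∀ r, FS (f s) (f s₀) r → r < q') :
    ∃ y : Word c, Same (fun o : Option X => o.elim x w) (fun o : Option X => o.elim y f) := by
  set y : Word c := ⟨fun p => if p < q' then (f s₀).1 p else if p = q' then a else c p, by
    refine ((f s₀).2.union (Set.finite_singleton q')).subset ?_
    intro p hp
    simp only [Set.mem_ofPred_eq] at hp
    simp only [Set.mem_union, Set.mem_ofPred_eq, Set.mem_singleton_iff]
    by_cases h1 : p < q'
    · rw [if_pos h1] at hp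
      exact Or.inl hp
    · rw [if_neg h1] at hp
      by_cases h2 : p = q'
      · exact Or.inr h2
      · rw [if_neg h2] at hp
        exact absurd rfl hp⟩ with hy
  have hylt : ∀ p < q', y.1 p = (f s₀).1 p := by
    intro p hp
    simp only [hy]
    rw [if_pos hp]
  have hyq : y.1 q' = a := by
    simp only [hy]
    rw [if_neg (lt_irrefl _)]
    simp
  have f5 : ∀ s, d s < d s₀ → FS (w s₀) (w s) (d s) := by
    intro s hlt
    refine ⟨fun p hp => ?_, ?_⟩
    · exact ((hd s₀).1 p (hp.trans hlt)).symm.trans ((hd s).1 p hp)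
    · rw [← (hd s₀).1 _ hlt]
      exact (hd s).2
  have key : ∀ s, ∃ r, FS y (f s) r ∧ (d s = d s₀ → r = q') ∧
      (d s < d s₀ → r < q' ∧ FS (f s₀) (f s) r) := by
    intro s
    rcases lt_or_eq_of_le (hmax s) with hlt | heq
    · have hne : f s₀ ≠ f s := fun h => (f5 s hlt).ne ((hF.1 s₀ s).2 h)
      obtain ⟨r, h1⟩ := exists_FS hne
      have hr : r < q' := H2 s hlt r h1.symm
      refine ⟨r, ⟨fun p hp => ?_, ?_⟩, fun h => absurd h hlt.ne, fun _ => ⟨hr, h1⟩⟩
      · rw [hylt p (hp.trans hr)]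
        exact h1.1 p hp
      · rw [hylt _ hr]
        exact h1.2
    · obtain ⟨g1, g2⟩ := H0 s heq
      refine ⟨q', ⟨fun p hp => ?_, ?_⟩, fun _ => rfl, fun h => absurd heq h.ne⟩
      · rw [hylt p hp]
        exact (g1 p hp).symm
      · rw [hyq]
        exact fun h => g2 h.symm
  choose g hg1 hg2 hg3 using key
  refine ⟨y, ext_step hF hd hg1 ?_ ?_⟩
  · intro s t
    rcases lt_or_eq_of_le (hmax s) with hs1 | hs1 <;>
      rcases lt_or_eq_of_le (hmax t) with ht1 | ht1
    · obtain ⟨a1, a3⟩ := hg3 s hs1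
      obtain ⟨b1, b3⟩ := hg3 t ht1
      rw [← cc_lt (f5 s hs1).symm (f5 t ht1), ← cc_lt a3.symm b3]
      exact hF.2 s₀ t s
    · obtain ⟨a1, a3⟩ := hg3 s hs1
      rw [hg2 t ht1, ht1]
      exact iff_of_true hs1 a1
    · obtain ⟨b1, b3⟩ := hg3 t ht1
      rw [hg2 s hs1, hs1]
      exact iff_of_false (not_lt.2 ht1.le) (not_lt.2 b1.le)
    · rw [hg2 s hs1, hg2 t ht1, hs1, ht1]
      exact iff_of_false (lt_irrefl _) (lt_irrefl _)
  · intro s t hst
    rcases lt_or_eq_of_le (hmax s) with hs1 | hs1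
    · have ht1 : d t < d s₀ := by rw [← hst]; exact hs1
      obtain ⟨a1, a3⟩ := hg3 s hs1
      obtain ⟨b1, b3⟩ := hg3 t ht1
      have h1 := cc_eq (f5 s hs1) (f5 t ht1)
      have h2 := cc_eq a3 b3
      have h3 := hF.2 s t s₀
      constructor
      · intro h4
        exact (h2.1 (h3.1 (h1.2 ⟨hst, h4⟩))).2
      · intro h4
        -- the splits are at the same place
        have h5 : g s = g t := by
          have k1 := cc_lt a3.symm b3
          have k2 := cc_lt b3.symm a3
          have k3 := cc_lt (f5 s hs1).symm (f5 t ht1)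
          have k4 := cc_lt (f5 t ht1).symm (f5 s hs1)
          rcases lt_trichotomy (g s) (g t) with h6 | h6 | h6
          · exact absurd (k3.1 ((hF.2 s₀ t s).2 (k1.2 h6))) (by rw [hst]; exact lt_irrefl _)
          · exact h6
          · exact absurd (k4.1 ((hF.2 s₀ s t).2 (k2.2 h6))) (by rw [hst]; exact lt_irrefl _)
        exact (h1.1 (h3.2 (h2.2 ⟨h5, h4⟩))).2
    · have ht1 : d t = d s₀ := by rw [← hst]; exact hs1
      rw [hg2 s hs1, hs1]
      exact H1 s t hs1 ht1

/-- All the letters at the last split are the same. -/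
lemma case1 {X : Type} [Finite X] {w f : X → Word c} (hF : Same w f) {x : Word c}
    {d : X → ℚ} (hd : ∀ s, FS x (w s) (d s)) (s₀ : X) (hmax : ∀ s, d s ≤ d s₀)
    (hall : ∀ s, d s = d s₀ → (w s).1 (d s₀) = (w s₀).1 (d s₀)) :
    ∃ y : Word c, Same (fun o : Option X => o.elim x w) (fun o : Option X => o.elim y f) := by
  have he : ∀ s, ∃ r, f s ≠ f s₀ → FS (f s) (f s₀) r := by
    intro s
    by_cases h : f s = f s₀
    · exact ⟨0, fun h' => absurd h h'⟩
    · obtain ⟨r, hr⟩ := exists_FS h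
      exact ⟨r, fun _ => hr⟩
  choose e he using he
  have ag : ∀ s, d s = d s₀ → ∀ p < d s₀, x.1 p = (w s).1 p := by
    intro s h p hp
    exact (hd s).1 p (by rw [h]; exact hp)
  have f5 : ∀ s, d s < d s₀ → FS (w s) (w s₀) (d s) := by
    intro s hlt
    refine ⟨fun p hp => ?_, ?_⟩
    · rw [← ag s₀ rfl p (hp.trans hlt)]
      exact ((hd s).1 p hp).symm
    · rw [← ag s₀ rfl _ hlt]
      exact fun e => (hd s).2 e.symm
  have f6 : ∀ s, d s < d s₀ → f s ≠ f s₀ := by
    intro s hlt h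
    exact (f5 s hlt).ne ((hF.1 s s₀).2 h)
  haveI := Fintype.ofFinite X
  set L : Finset ℚ := (Finset.univ.filter (fun s => d s < d s₀)).image e with hL
  set U : Finset ℚ := (Finset.univ.filter (fun s => d s = d s₀ ∧ f s ≠ f s₀)).image e with hU
  have hLU : ∀ r ∈ L, ∀ r' ∈ U, r < r' := by
    intro r hr r' hr'
    rw [hL, Finset.mem_image] at hr
    rw [hU, Finset.mem_image] at hr'
    obtain ⟨t, ht, rfl⟩ := hr
    obtain ⟨s, hs, rfl⟩ := hr'
    rw [Finset.mem_filter] at ht hs
    obtain ⟨-, ht1⟩ := ht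
    obtain ⟨-, hs1, hs2⟩ := hs
    have hne : w s₀ ≠ w s := fun h => hs2 (((hF.1 s₀ s).1 h).symm)
    obtain ⟨p, hp⟩ := exists_FS hne
    have hqp : d s₀ < p := by
      by_contra hc
      rcases lt_or_eq_of_le (not_lt.1 hc) with h | h
      · exact hp.2 ((ag s₀ rfl p h).symm.trans (ag s hs1 p h))
      · subst h
        exact hp.2 (hall s hs1).symm
    have hc : Cc (w t) (w s₀) (w s) := (cc_lt (f5 t ht1) hp).2 (ht1.trans hqp)
    exact (cc_lt (he t (f6 t ht1)) (he s hs2).symm).1 ((hF.2 s₀ s t).1 hc)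
  obtain ⟨q', hq1, hq2⟩ := Order.exists_between_finsets L U hLU
  obtain ⟨a, ha⟩ : ∃ a : K, (f s₀).1 q' ≠ a := by
    by_cases h : (f s₀).1 q' = x.1 (d s₀)
    · refine ⟨(w s₀).1 (d s₀), ?_⟩
      rw [h]
      exact (hd s₀).2
    · exact ⟨x.1 (d s₀), h⟩
  have hag : ∀ s, d s = d s₀ → Agr (f s) (f s₀) q' ∧ (f s).1 q' = (f s₀).1 q' := by
    intro s heq
    by_cases h : f s = f s₀
    · rw [h]
      exact ⟨fun _ _ => rfl, rfl⟩
    · have h1 := he s h
      have hmem : e s ∈ U := by
        rw [hU]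
        exact Finset.mem_image_of_mem _ (Finset.mem_filter.2 ⟨Finset.mem_univ _, heq, h⟩)
      have hlt : q' < e s := hq2 _ hmem
      exact ⟨fun p hp => h1.1 p (hp.trans hlt), h1.1 q' hlt⟩
  refine fin_step hF hd s₀ hmax q' a ?_ ?_ ?_
  · intro s heq
    refine ⟨(hag s heq).1, ?_⟩
    rw [(hag s heq).2]
    exact ha
  · intro s t hs ht
    exact iff_of_true ((hall s hs).trans (hall t ht).symm) ((hag s hs).2.trans (hag t ht).2.symm)
  · intro s hlt r hr
    obtain rfl := (he s (f6 s hlt)).unique hr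
    apply hq1
    rw [hL]
    exact Finset.mem_image_of_mem _ (Finset.mem_filter.2 ⟨Finset.mem_univ _, hlt⟩)

/-- A new branch at a given branch point. -/
lemma new_branch {X : Type} {w f : X → Word c} (hF : Same w f) {q q' : ℚ} {u u' s : X}
    (h1 : FS (w u) (w u') q) (h2 : FS (f u) (f u') q') (h3 : FS (w u) (w s) q)
    (h4 : Agr (f u) (f s) q') : FS (f u) (f s) q' := by
  have hne : f u ≠ f s := fun h => h3.ne ((hF.1 u s).2 h)
  obtain ⟨r, hr⟩ := exists_FS hne
  rcases lt_trichotomy q' r with h | h | h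
  · exfalso
    have h5 := (cc_lt h2.symm hr).2 h
    have h6 := (hF.2 u s u').2 h5
    exact lt_irrefl _ ((cc_lt h1.symm h3).1 h6)
  · rw [h]
    exact hr
  · exact absurd (h4 r h) hr.2

/-- Two letters at the last split are different. -/
lemma case2 {X : Type} [Finite K] {w f : X → Word c} (hF : Same w f) {x : Word c}
    {d : X → ℚ} (hd : ∀ s, FS x (w s) (d s)) (s₀ : X) (hmax : ∀ s, d s ≤ d s₀) (s₁ : X)
    (h1 : d s₁ = d s₀) (hne : (w s₁).1 (d s₀) ≠ (w s₀).1 (d s₀)) :
    ∃ y : Word c, Same (fun o : Option X => o.elim x w) (fun o : Option X => o.elim y f) := by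
  have ag : ∀ s, d s = d s₀ → ∀ p < d s₀, x.1 p = (w s).1 p := by
    intro s h p hp
    exact (hd s).1 p (by rw [h]; exact hp)
  have ag2 : ∀ s t, d s = d s₀ → d t = d s₀ → ∀ p < d s₀, (w s).1 p = (w t).1 p :=
    fun s t hs ht p hp => (ag s hs p hp).symm.trans (ag t ht p hp)
  have f1 : FS (w s₀) (w s₁) (d s₀) := ⟨ag2 s₀ s₁ rfl h1, fun h => hne h.symm⟩
  obtain ⟨q', f2⟩ := exists_FS (fun h => f1.ne ((hF.1 s₀ s₁).2 h) : f s₀ ≠ f s₁)
  -- the words agree below `q'`
  have hA : ∀ s, d s = d s₀ → Agr (f s) (f s₀) q' := by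
    intro s hs
    by_cases h : w s = w s₀
    · rw [(hF.1 s s₀).1 h]
      exact fun _ _ => rfl
    · obtain ⟨p, hp⟩ := exists_FS h
      obtain ⟨r, hr⟩ := exists_FS (fun h' => h ((hF.1 s s₀).2 h') : f s ≠ f s₀)
      have hpq : ¬ p < d s₀ := fun h' => hp.2 (ag2 s s₀ hs rfl p h')
      have hc : ¬ Cc (w s) (w s₀) (w s₁) := fun h' => hpq ((cc_lt hp f1).1 h')
      have hrq : ¬ r < q' := fun h' => hc ((hF.2 s₀ s₁ s).2 ((cc_lt hr f2).2 h'))
      exact fun p' hp' => hr.1 p' (hp'.trans_le (not_lt.1 hrq))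
  have hA2 : ∀ s t, d s = d s₀ → d t = d s₀ → Agr (f s) (f t) q' :=
    fun s t hs ht p hp => (hA s hs p hp).trans (hA t ht p hp).symm
  -- the letters correspond
  have hB : ∀ s t, d s = d s₀ → d t = d s₀ →
      ((w s).1 (d s₀) = (w t).1 (d s₀) ↔ (f s).1 q' = (f t).1 q') := by
    intro s t hs ht
    by_cases h : w s = w t
    · rw [(hF.1 s t).1 h, h]
      exact iff_of_true rfl rfl
    · obtain ⟨p, hp⟩ := exists_FS h
      obtain ⟨r, hr⟩ := exists_FS (fun h' => h ((hF.1 s t).2 h') : f s ≠ f t)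
      have hpq : d s₀ ≤ p := not_lt.1 fun h' => hp.2 (ag2 s t hs ht p h')
      have hrq : q' ≤ r := not_lt.1 fun h' => hr.2 (hA2 s t hs ht r h')
      have hu : ∃ u, FS (w u) (w s) (d s₀) ∧ FS (f u) (f s) q' := by
        by_cases h5 : (w s₀).1 (d s₀) = (w s).1 (d s₀)
        · have h6 : FS (w s₁) (w s) (d s₀) :=
            ⟨ag2 s₁ s h1 hs, fun h7 => hne (h7.trans h5.symm)⟩
          exact ⟨s₁, h6, new_branch hF f1.symm f2.symm h6 (hA2 s₁ s h1 hs)⟩
        · have h6 : FS (w s₀) (w s) (d s₀) := ⟨ag2 s₀ s rfl hs, h5⟩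
          exact ⟨s₀, h6, new_branch hF f1 f2 h6 (hA2 s₀ s rfl hs)⟩
      obtain ⟨u, hu1, hu2⟩ := hu
      have k1 := cc_lt hu1 hp
      have k2 := cc_lt hu2 hr
      have k3 := hF.2 s t u
      have k4 : (w s).1 (d s₀) = (w t).1 (d s₀) ↔ d s₀ < p := by
        constructor
        · intro h6
          rcases lt_or_eq_of_le hpq with h7 | h7
          · exact h7
          · rw [h7] at h6
            exact absurd h6 hp.2
        · exact fun h6 => hp.1 _ h6
      have k5 : (f s).1 q' = (f t).1 q' ↔ q' < r := by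
        constructor
        · intro h6
          rcases lt_or_eq_of_le hrq with h7 | h7
          · exact h7
          · rw [h7] at h6
            exact absurd h6 hr.2
        · exact fun h6 => hr.1 _ h6
      rw [k4, k5, ← k1, ← k2]
      exact k3
  -- there is a new letter
  obtain ⟨a, ha⟩ : ∃ a : K, ∀ s, d s = d s₀ → (f s).1 q' ≠ a := by
    by_contra hcon
    push Not at hcon
    choose g hg1 hg2 using hcon
    have hinj : Function.Injective (fun a : K => (w (g a)).1 (d s₀)) := by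
      intro a b hab
      have := (hB (g a) (g b) (hg1 a) (hg1 b)).1 hab
      rw [hg2, hg2] at this
      exact this
    obtain ⟨a, ha⟩ := (Finite.injective_iff_surjective.1 hinj) (x.1 (d s₀))
    have h5 := (hd (g a)).2
    rw [hg1 a] at h5
    exact h5 ha.symm
  refine fin_step hF hd s₀ hmax q' a (fun s hs => ⟨hA s hs, ha s hs⟩) hB ?_
  intro s hlt r hr
  have f5 : FS (w s) (w s₀) (d s) := by
    refine ⟨fun p hp => ?_, ?_⟩
    · rw [← ag s₀ rfl p (hp.trans hlt)]
      exact ((hd s).1 p hp).symm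
    · rw [← ag s₀ rfl _ hlt]
      exact fun e => (hd s).2 e.symm
  have hc : Cc (w s) (w s₀) (w s₁) := (cc_lt f5 f1).2 hlt
  exact (cc_lt hr f2).1 ((hF.2 s₀ s₁ s).1 hc)

end XOPK

open XOPK

theorem OPK_pf : S_OPK := by
  intro K _ c X _ w f hF x
  by_cases hx : ∃ s, w s = x
  · obtain ⟨s, rfl⟩ := hx
    refine ⟨f s, ?_⟩
    have e1 : (fun o : Option X => o.elim (w s) w) = fun o => w (o.elim s id) := by
      funext o; cases o <;> rfl
    have e2 : (fun o : Option X => o.elim (f s) f) = fun o => f (o.elim s id) := by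
      funext o; cases o <;> rfl
    rw [e1, e2]
    exact hF.comp _
  · push Not at hx
    rcases isEmpty_or_nonempty X with hemp | hne
    · exact ⟨x, ext_step hF (d := fun _ => 0) (e := fun _ => 0) (fun s => hemp.elim s)
        (fun s => hemp.elim s) (fun s => hemp.elim s) (fun s => hemp.elim s)⟩
    · have hd : ∀ s, ∃ r, FS x (w s) r := fun s => exists_FS (fun e => hx s e.symm)
      choose d hd using hd
      obtain ⟨s₀, hmax⟩ := Finite.exists_max d
      by_cases hc : ∃ s₁, d s₁ = d s₀ ∧ (w s₁).1 (d s₀) ≠ (w s₀).1 (d s₀)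
      · obtain ⟨s₁, h1, h2⟩ := hc
        exact case2 hF hd s₀ hmax s₁ h1 h2
      · push Not at hc
        exact case1 hF hd s₀ hmax hc

end Pool.Agent.Work.MP_8dbde4_lc.Bra
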