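import Pool.Agent.Work.MP_8dbde4_lc.Bra.Stmts
import Pool.Agent.Work.MP_8dbde4_lc.Phy.I_CPS

/-!
# Item PC2: the split relation is primitive positive definable in the binary subtree
-/

set_option autoImplicit false
open Classical

namespace Pool.Agent.Work.MP_8dbde4_lc.Bra

open Pool.Agent.Work.MP_8dbde4_lc.TS
open Pool.Agent.Work.MP_8dbde4_lc.Tree (Word Agr Sp Cc)
open Pool.Agent.Work.MP_8dbde4_lc.Phy (PP Hom SameOn C3)

namespace XPC2

open Phy.XCPS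

theorem cc_irr {c : ℚ → Bool} {x y : Word c} : ¬ Cc x x y := fun h => cc_ne h rfl

theorem cc_irr2 {c : ℚ → Bool} {x y : Word c} : ¬ Cc x y x := fun h => cc_ne (cc_symm h) rfl

theorem cc_same_iff {c : ℚ → Bool} {x y : Word c} : Cc x y y ↔ x ≠ y :=
  ⟨cc_ne, cc_same⟩

/-- the splits of a triple which satisfies the split relation -/
theorem val {c : ℚ → Bool} {a : Fin 3 → Word c} (ha : Cc (a 0) (a 1) (a 2)) (x y z : Fin 3) :
    Cc (a z) (a x) (a y) ↔ (z = 0 ∧ x ≠ 0 ∧ y ≠ 0) ∨ (z ≠ 0 ∧ x = 0 ∧ y = 0) ∨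
      (z ≠ 0 ∧ x ≠ 0 ∧ x = y ∧ z ≠ x ∧ a 1 ≠ a 2) := by
  have f021 : Cc (a 0) (a 2) (a 1) := cc_symm ha
  have n102 : ¬ Cc (a 1) (a 0) (a 2) := cc_asymm ha
  have n120 : ¬ Cc (a 1) (a 2) (a 0) := fun h => n102 (cc_symm h)
  have n201 : ¬ Cc (a 2) (a 0) (a 1) := cc_asymm f021
  have n210 : ¬ Cc (a 2) (a 1) (a 0) := fun h => n201 (cc_symm h)
  have e01 : a 0 ≠ a 1 := cc_ne ha
  have e02 : a 0 ≠ a 2 := cc_ne f021
  have e12 : a 2 ≠ a 1 ↔ a 1 ≠ a 2 := ne_comm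
  fin_cases x <;> fin_cases y <;> fin_cases z <;>
    simp [ha, f021, n102, n120, n201, n210, cc_irr, cc_irr2, cc_same_iff, e01, e02, e01.symm,
      e02.symm, eq_comm]

/-- two triples which satisfy the split relation -/
theorem same3 {c : ℚ → Bool} {a b : Fin 3 → Word c} (ha : Cc (a 0) (a 1) (a 2))
    (hb : Cc (b 0) (b 1) (b 2)) (hab : a 1 = a 2 ↔ b 1 = b 2) : SameOn Set.univ a b := by
  constructor
  · intro x _ y _
    have h1 : a x = a y ↔ ¬ Cc (a x) (a y) (a y) := by rw [cc_same_iff, not_not]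
    have h2 : b x = b y ↔ ¬ Cc (b x) (b y) (b y) := by rw [cc_same_iff, not_not]
    rw [h1, h2, val ha, val hb, ne_eq (a 1), ne_eq (b 1), hab]
  · intro x _ y _ z _
    rw [val ha, val hb, ne_eq (a 1), ne_eq (b 1), hab]

end XPC2

open XPC2 in
theorem PC2_pf : S_PC2 := by
  intro hPPB hAMA hEMB σ K c 𝔅 ι hι hιc hL hbin
  obtain ⟨D, hD, 𝔇, m, hm⟩ := hL.ppC
  have hDf : Finite D := hD
  -- tuples in the subtree
  have hsame : ∀ {X : Type} (u : X → Word c₂), Same u (fun x => ι (u x)) := fun u =>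
    ⟨fun x y => (hι.eq_iff).symm, fun x y z => hιc _ _ _⟩
  refine ⟨D, hD, 𝔇, m, fun v => ⟨fun hv => ?_, ?_⟩⟩
  · have hv' : Cc (v 0) (v 1) (v 2) := hv
    have hCC : CC (fun x => ι (v x)) := (hιc _ _ _).1 hv'
    obtain ⟨f₀, hf₀, hf₀v⟩ := (hm _).1 hCC
    obtain ⟨-, p2, p3, -, p5, -, -⟩ := hPPB σ (Word c) 𝔅
    have pHom : PP 𝔅 (fun f : D → Word c => Hom 𝔇 𝔅 f) :=
      ⟨D, hD, 𝔇, id, fun v => ⟨fun h => ⟨v, h, fun _ => rfl⟩, fun ⟨f, hf, hfv⟩ => by
        rw [funext hfv]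
        exact hf⟩⟩
    have pCC : PP 𝔅 (fun f : D → Word c => CC (fun x => f (m x))) := p3 (Fin 3) D _ m hL.ppC
    -- the binary homomorphism
    obtain ⟨f, ⟨hf1, hf2⟩, hf3, hfb⟩ : ∃ f : D → Word c, (Hom 𝔇 𝔅 f ∧ CC (fun x => f (m x))) ∧
        (if v 1 = v 2 then f (m 1) = f (m 2) else Cc (f (m 1)) (f (m 2)) (f (m 2))) ∧
        BinOn Set.univ f := by
      by_cases h12 : v 1 = v 2
      · obtain ⟨f, hf, hfb⟩ := hbin D _ (p2 D _ _ (p2 D _ _ pHom pCC) (p5 D (m 1) (m 2)))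
          ⟨f₀, ⟨hf₀, by
            have e : (fun x => f₀ (m x)) = fun x => ι (v x) := funext fun x => (hf₀v x).symm
            rw [e]
            exact hCC⟩, by rw [← hf₀v 1, ← hf₀v 2, h12]⟩
        exact ⟨f, hf.1, by rw [if_pos h12]; exact hf.2, hfb⟩
      · have pne : PP 𝔅 (fun f : D → Word c => Cc (f (m 1)) (f (m 2)) (f (m 2))) := by
          have h := p3 (Fin 3) D _ ![m 1, m 2, m 2] hL.ppC
          exact h
        obtain ⟨f, hf, hfb⟩ := hbin D _ (p2 D _ _ (p2 D _ _ pHom pCC) pne)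
          ⟨f₀, ⟨hf₀, by
            have e : (fun x => f₀ (m x)) = fun x => ι (v x) := funext fun x => (hf₀v x).symm
            rw [e]
            exact hCC⟩, by
            rw [← hf₀v 1, ← hf₀v 2]
            exact (hιc _ _ _).1 (Phy.XCPS.cc_same h12)⟩
        exact ⟨f, hf.1, by rw [if_neg h12]; exact hf.2, hfb⟩
    obtain ⟨u, hu⟩ := hEMB K c D f hfb
    have hu' : Same f (fun x => ι (u x)) := hu.trans (hsame u)
    have huHom : Hom 𝔇 𝔅 (fun x => ι (u x)) := fun R t ht =>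
      hL.inv R _ _ (hu'.comp t) (hf1 R t ht)
    have huC : Cc (u (m 0)) (u (m 1)) (u (m 2)) := (hu.2 (m 1) (m 2) (m 0)).1 hf2
    have hu12 : v 1 = v 2 ↔ u (m 1) = u (m 2) := by
      by_cases h12 : v 1 = v 2
      · rw [if_pos h12] at hf3
        exact ⟨fun _ => (hu.1 _ _).1 hf3, fun _ => h12⟩
      · rw [if_neg h12] at hf3
        have h1 := Phy.XCPS.cc_ne ((hu.2 (m 2) (m 2) (m 1)).1 hf3)
        exact ⟨fun h => absurd h h12, fun h => absurd h h1⟩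
    obtain ⟨g, hg1, hg2⟩ := hAMA c₂ D (Fin 3) u v m (same3 hv' huC hu12)
    refine ⟨g, ?_, fun x => (hg2 x).symm⟩
    intro R t ht
    have hug : Same u g := ⟨fun x y => hg1.1 x trivial y trivial,
      fun x y z => hg1.2 x trivial y trivial z trivial⟩
    have h1 : Same (fun x => ι (u x)) (fun x => ι (g x)) :=
      ((hsame u).symm.trans hug).trans (hsame g)
    exact hL.inv R _ _ (h1.comp t) (huHom R t ht)
  · rintro ⟨f, hf, hfv⟩
    have h1 : CC (fun x => ι (v x)) := (hm _).2 ⟨fun x => ι (f x), fun R t ht => hf R t ht,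
      fun x => by rw [hfv x]⟩
    exact (hιc _ _ _).2 h1

end Pool.Agent.Work.MP_8dbde4_lc.Bra
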