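import Pool.Agent.Work.MP_8dbde4_lc.Bra.Stmts

/-!
Item SOL of the block Bra of MP_8dbde4_lc: the instance `J_0` is solvable in the structure itself.
-/

set_option autoImplicit false
open Classical

namespace Pool.Agent.Work.MP_8dbde4_lc.Bra

open Pool.Agent.Work.MP_8dbde4_lc.TS
open Pool.Agent.Work.MP_8dbde4_lc.Tree (Word Agr Sp Cc SameT Fam Gad El anch trip Den row BFSys)
open Pool.Agent.Work.MP_8dbde4_lc.Loc (MLang lang JJ GS IsC mk Pair fam Tie core)

namespace XSOL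

/-- the map of the places -/
noncomputable def pi (n : ℕ) (q x : ℚ) : ℚ :=
  if x < q then -((n : ℚ) + 1) - (q - x) / (1 + (q - x)) else if x = q then 0 else 1 + (x - q)

theorem pi_lt {n : ℕ} {q x : ℚ} (h : x < q) :
    -((n : ℚ) + 2) < pi n q x ∧ pi n q x < -((n : ℚ) + 1) := by
  have h1 : 0 < q - x := by linarith
  have h2 : 0 < (q - x) / (1 + (q - x)) := by positivity
  have h3 : (q - x) / (1 + (q - x)) < 1 := by
    rw [div_lt_one (by linarith)]
    linarith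
  unfold pi
  rw [if_pos h]
  constructor <;> linarith

theorem pi_self (n : ℕ) (q : ℚ) : pi n q q = 0 := by
  unfold pi
  simp

theorem pi_gt {n : ℕ} {q x : ℚ} (h : q < x) : 1 < pi n q x := by
  unfold pi
  rw [if_neg (not_lt.2 h.le), if_neg h.ne']
  linarith

theorem pi_neg {n : ℕ} {q x : ℚ} (h : pi n q x < 0) : x < q := by
  by_contra h1
  rcases (not_lt.1 h1).eq_or_lt with h2 | h2
  · rw [← h2, pi_self] at h
    exact lt_irrefl _ h
  · have := pi_gt (n := n) h2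
    linarith

theorem pi_mono (n : ℕ) (q : ℚ) : StrictMono (pi n q) := by
  intro x y hxy
  rcases lt_trichotomy y q with h | h | h
  · have hx : x < q := hxy.trans h
    unfold pi
    rw [if_pos h, if_pos hx]
    have h1 : (q - y) / (1 + (q - y)) < (q - x) / (1 + (q - x)) := by
      rw [div_lt_div_iff₀ (by linarith) (by linarith)]
      nlinarith
    linarith
  · subst h
    have h1 := (pi_lt (n := n) hxy).2
    rw [pi_self]
    have : (0 : ℚ) ≤ n := Nat.cast_nonneg n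
    linarith
  · rcases lt_trichotomy x q with h1 | h1 | h1
    · have h2 := (pi_lt (n := n) h1).2
      have h3 := pi_gt (n := n) h
      have : (0 : ℚ) ≤ n := Nat.cast_nonneg n
      linarith
    · subst h1
      rw [pi_self]
      have h3 := pi_gt (n := n) h
      linarith
    · unfold pi
      rw [if_neg (not_lt.2 h.le), if_neg h.ne', if_neg (not_lt.2 h1.le), if_neg h1.ne']
      linarith

theorem pi_num {n n' : ℕ} {q q' x x' : ℚ} (h : x < q) (h' : x' < q')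
    (he : pi n q x = pi n' q' x') : n = n' := by
  obtain ⟨a1, a2⟩ := pi_lt (n := n) h
  obtain ⟨b1, b2⟩ := pi_lt (n := n') h'
  rw [he] at a1 a2
  have h1 : (n : ℚ) < (n' : ℚ) + 1 := by linarith
  have h2 : (n' : ℚ) < (n : ℚ) + 1 := by linarith
  have h3 : n < n' + 1 := by exact_mod_cast h1
  have h4 : n' < n + 1 := by exact_mod_cast h2
  omega

/-- the shape of the words which are not dummies -/
def Q {K : Type} {c : ℚ → K} (B : ℚ → K) (x : Word c) (a b : K) : Prop :=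
  (∀ y < 0, x.1 y = B y) ∧ x.1 0 = a ∧ x.1 1 = b ∧ ∀ y, 0 < y → y < 1 → x.1 y = c y

theorem Q.split0 {K : Type} {c : ℚ → K} {B : ℚ → K} {z x y : Word c} {a b a' b' b'' : K}
    (hz : Q B z a b) (hx : Q B x a' b') (hy : Q B y a' b'') (h : a ≠ a') : Cc z x y := by
  refine ⟨0, fun r hr => (hz.1 r hr).trans (hx.1 r hr).symm,
    fun r hr => (hz.1 r hr).trans (hy.1 r hr).symm, hx.2.1.trans hy.2.1.symm, ?_⟩
  rw [hz.2.1, hx.2.1]
  exact h

theorem Q.agr1 {K : Type} {c : ℚ → K} {B : ℚ → K} {z x : Word c} {a b b' : K}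
    (hz : Q B z a b) (hx : Q B x a b') : Agr z x 1 := by
  intro r hr
  rcases lt_trichotomy r 0 with h | h | h
  · exact (hz.1 r h).trans (hx.1 r h).symm
  · rw [h, hz.2.1, hx.2.1]
  · exact (hz.2.2.2 r h hr).trans (hx.2.2.2 r h hr).symm

theorem Q.split1 {K : Type} {c : ℚ → K} {B : ℚ → K} {z x y : Word c} {a b b' : K}
    (hz : Q B z a b) (hx : Q B x a b') (hy : Q B y a b') (h : b ≠ b') : Cc z x y := by
  refine ⟨1, hz.agr1 hx, hz.agr1 hy, hx.2.2.1.trans hy.2.2.1.symm, ?_⟩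
  rw [hz.2.2.1, hx.2.2.1]
  exact h

/-- the trunk and the moved tuples -/
theorem trunk (hMOV : S_MOV) {K : Type} {c : ℚ → K} (P : Type) [Finite P] (n : P → ℕ)
    (w : ∀ ρ, Fin (n ρ) → Word c) (q : P → ℚ) (s : ∀ ρ, Fin (n ρ) → Bool) (good : P → Prop)
    (agr : ∀ ρ, good ρ → ∀ i j, s ρ i = true → s ρ j = true → Agr (w ρ i) (w ρ j) (q ρ)) (k₀ : K) :
    ∃ B : ℚ → K, {y | B y ≠ c y}.Finite ∧ (∀ y, 0 ≤ y → B y = c y) ∧
      ∀ ρ, good ρ → ∃ V : Fin (n ρ) → Word c, SameT (w ρ) V ∧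
        ∀ j, s ρ j = true → Q B (V j) ((w ρ j).1 (q ρ)) k₀ := by
  obtain ⟨num, hnum⟩ := Countable.exists_injective_nat P
  obtain ⟨Δ, hΔ⟩ : ∃ Δ : P → Set ℚ, Δ = fun ρ => {x | ∃ j, (w ρ j).1 x ≠ c x} ∪ {q ρ} :=
    ⟨_, rfl⟩
  have hΔf : ∀ ρ, (Δ ρ).Finite := by
    intro ρ
    rw [hΔ]
    refine Set.Finite.union ?_ (Set.finite_singleton _)
    have : {x | ∃ j, (w ρ j).1 x ≠ c x} = ⋃ j, {x | (w ρ j).1 x ≠ c x} := by
      ext x
      simp
    rw [this]
    exact Set.finite_iUnion fun j => (w ρ j).2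
  have hΔq : ∀ ρ, q ρ ∈ Δ ρ := by
    intro ρ
    rw [hΔ]
    exact Or.inr rfl
  have hΔn : ∀ ρ x, x ∉ Δ ρ → ∀ j, (w ρ j).1 x = c x := by
    intro ρ x hx j
    by_contra h
    apply hx
    rw [hΔ]
    exact Or.inl ⟨j, h⟩
  -- the trunk
  obtain ⟨T, hT⟩ : ∃ T : ℚ → K → Prop, T = fun y b => ∃ (ρ : P) (x : ℚ) (j : Fin (n ρ)),
    good ρ ∧ x ∈ Δ ρ ∧ x < q ρ ∧ s ρ j = true ∧ y = pi (num ρ) (q ρ) x ∧ b = (w ρ j).1 x :=
    ⟨_, rfl⟩
  have hTu : ∀ y b b', T y b → T y b' → b = b' := by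
    intro y b b' h h'
    rw [hT] at h h'
    obtain ⟨ρ, x, j, hg, hx, hxq, hs, hy, rfl⟩ := h
    obtain ⟨ρ', x', j', hg', hx', hxq', hs', hy', rfl⟩ := h'
    have h1 : num ρ = num ρ' := pi_num hxq hxq' (hy.symm.trans hy')
    have h2 := hnum h1
    subst h2
    have h3 : x = x' := (pi_mono (num ρ) (q ρ)).injective (hy.symm.trans hy')
    subst h3
    exact agr ρ hg j j' hs hs' x hxq
  obtain ⟨B, hB⟩ : ∃ B : ℚ → K, B = fun y => if h : ∃ b, T y b then h.choose else c y :=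
    ⟨_, rfl⟩
  have hB1 : ∀ y b, T y b → B y = b := by
    intro y b h
    have h1 : ∃ b, T y b := ⟨b, h⟩
    rw [hB]
    simp only [dif_pos h1]
    exact hTu y _ _ h1.choose_spec h
  have hB2 : ∀ y, (¬ ∃ b, T y b) → B y = c y := by
    intro y h
    rw [hB]
    simp only [dif_neg h]
  have hB0 : ∀ y, 0 ≤ y → B y = c y := by
    intro y hy
    apply hB2
    rintro ⟨b, h⟩
    rw [hT] at h
    obtain ⟨ρ, x, j, _, _, hxq, _, rfl, _⟩ := h
    have h1 := (pi_lt (n := num ρ) hxq).2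
    have : (0 : ℚ) ≤ num ρ := Nat.cast_nonneg _
    linarith
  have hBf : {y | B y ≠ c y}.Finite := by
    have h1 : (⋃ ρ, pi (num ρ) (q ρ) '' Δ ρ).Finite :=
      Set.finite_iUnion fun ρ => (hΔf ρ).image _
    refine h1.subset ?_
    intro y hy
    have h2 : ∃ b, T y b := by
      by_contra h
      exact hy (hB2 y h)
    obtain ⟨b, h⟩ := h2
    rw [hT] at h
    obtain ⟨ρ, x, j, _, hx, _, _, rfl, _⟩ := h
    exact Set.mem_iUnion.2 ⟨ρ, x, hx, rfl⟩
  refine ⟨B, hBf, hB0, ?_⟩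
  intro ρ hg
  -- the words
  obtain ⟨F, hF⟩ : ∃ F : Fin (n ρ) → ℚ → K, F = fun j y =>
    if h : ∃ x, x ∈ Δ ρ ∧ y = pi (num ρ) (q ρ) x then (w ρ j).1 h.choose
      else if y = 1 then k₀ else B y := ⟨_, rfl⟩
  have hF1 : ∀ j x, x ∈ Δ ρ → F j (pi (num ρ) (q ρ) x) = (w ρ j).1 x := by
    intro j x hx
    have h1 : ∃ x', x' ∈ Δ ρ ∧ pi (num ρ) (q ρ) x = pi (num ρ) (q ρ) x' := ⟨x, hx, rfl⟩
    rw [hF]
    simp only [dif_pos h1]
    have h2 := (pi_mono (num ρ) (q ρ)).injective h1.choose_spec.2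
    rw [← h2]
  have hF2 : ∀ j y, (¬ ∃ x, x ∈ Δ ρ ∧ y = pi (num ρ) (q ρ) x) →
      F j y = if y = 1 then k₀ else B y := by
    intro j y h
    rw [hF]
    simp only [dif_neg h]
  have hFf : ∀ j, {y | F j y ≠ c y}.Finite := by
    intro j
    have h1 : ((pi (num ρ) (q ρ) '' Δ ρ) ∪ ({1} ∪ {y | B y ≠ c y})).Finite :=
      ((hΔf ρ).image _).union ((Set.finite_singleton _).union hBf)
    refine h1.subset ?_
    intro y hy
    by_cases h2 : ∃ x, x ∈ Δ ρ ∧ y = pi (num ρ) (q ρ) x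
    · obtain ⟨x, hx, rfl⟩ := h2
      exact Or.inl ⟨x, hx, rfl⟩
    · right
      have hy' : F j y ≠ c y := hy
      rw [hF2 j y h2] at hy'
      by_cases h3 : y = 1
      · exact Or.inl h3
      · rw [if_neg h3] at hy'
        exact Or.inr hy'
  refine ⟨fun j => ⟨F j, hFf j⟩, ?_, ?_⟩
  · refine hMOV K c (n ρ) (w ρ) (fun j => ⟨F j, hFf j⟩) (pi (num ρ) (q ρ)) (Δ ρ) (pi_mono _ _)
      (fun x hx j => hF1 j x hx) (fun x hx i j => by rw [hΔn ρ x hx, hΔn ρ x hx]) ?_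
    intro y hy i j
    have h2 : ¬ ∃ x, x ∈ Δ ρ ∧ y = pi (num ρ) (q ρ) x := by
      rintro ⟨x, hx, rfl⟩
      exact hy ⟨x, hx, rfl⟩
    exact (hF2 i y h2).trans (hF2 j y h2).symm
  · intro j hj
    refine ⟨?_, ?_, ?_, ?_⟩
    · intro y hy
      change F j y = B y
      by_cases h2 : ∃ x, x ∈ Δ ρ ∧ y = pi (num ρ) (q ρ) x
      · obtain ⟨x, hx, rfl⟩ := h2
        have hxq := pi_neg hy
        rw [hF1 j x hx]
        symm
        apply hB1
        rw [hT]
        exact ⟨ρ, x, j, hg, hx, hxq, hj, rfl, rfl⟩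
      · have h3 : y ≠ 1 := by linarith
        rw [hF2 j y h2, if_neg h3]
    · change F j 0 = _
      have h1 := hF1 j (q ρ) (hΔq ρ)
      rwa [pi_self] at h1
    · change F j 1 = k₀
      have h2 : ¬ ∃ x, x ∈ Δ ρ ∧ 1 = pi (num ρ) (q ρ) x := by
        rintro ⟨x, _, hx⟩
        rcases lt_trichotomy x (q ρ) with h | h | h
        · have h1 := (pi_lt (n := num ρ) h).2
          have : (0 : ℚ) ≤ num ρ := Nat.cast_nonneg _
          linarith
        · rw [h, pi_self] at hx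
          linarith
        · have := pi_gt (n := num ρ) h
          linarith
      rw [hF2 j 1 h2, if_pos rfl]
    · intro y h0 h1
      change F j y = c y
      have h2 : ¬ ∃ x, x ∈ Δ ρ ∧ y = pi (num ρ) (q ρ) x := by
        rintro ⟨x, _, hx⟩
        rcases lt_trichotomy x (q ρ) with h | h | h
        · have h1 := (pi_lt (n := num ρ) h).2
          have : (0 : ℚ) ≤ num ρ := Nat.cast_nonneg _
          linarith
        · rw [h, pi_self] at hx
          linarith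
        · have := pi_gt (n := num ρ) h
          linarith
      rw [hF2 j y h2, if_neg h1.ne, hB0 y h0.le]

/-- a simple word -/
theorem simple {K : Type} {c : ℚ → K} {B : ℚ → K} (hBf : {y | B y ≠ c y}.Finite)
    (hB0 : ∀ y, 0 ≤ y → B y = c y) (a b : K) : ∃ x : Word c, Q B x a b := by
  have hf : {y | (fun y => if y = 0 then a else if y = 1 then b else B y) y ≠ c y}.Finite := by
    refine (((Set.finite_singleton (0 : ℚ)).union (Set.finite_singleton 1)).union hBf).subset ?_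
    intro y hy
    by_cases h0 : y = 0
    · exact Or.inl (Or.inl h0)
    · by_cases h1 : y = 1
      · exact Or.inl (Or.inr h1)
      · right
        simpa [h0, h1] using hy
  refine ⟨⟨_, hf⟩, ?_, ?_, ?_, ?_⟩
  · intro y hy
    have h0 : y ≠ 0 := hy.ne
    have h1 : y ≠ 1 := by linarith
    simp only [if_neg h0, if_neg h1]
  · simp
  · simp
  · intro y h0 h1
    simp only [if_neg h0.ne', if_neg h1.ne]
    exact hB0 y h0.le

end XSOL

open XSOL in
theorem SOL_pf : S_SOL := by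
  intro hMOV σ K c 𝔅 hB C U G _ g h p I D hG hI hK hp hC hD
  have hne : NeZero p := ⟨hp⟩
  have hfp : Finite (ZMod p) := inferInstance
  choose f hpol hf using hD.sol
  have hio : (D.io 1 : K) ≠ (D.io 0 : K) := fun e => hD.inj (Subtype.ext e.symm)
  have h01 : (1 : ZMod p) ≠ 0 := fun e => hD.inj (by rw [e])
  -- the index set
  let P : Type := ZMod p × ZMod p × (Σ R : (mk σ).S, (Fin ((mk σ).ar R) → I → U))
  have hP : Finite P := by
    have h1 : Finite (mk σ).S := Finite.of_fintype _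
    infer_instance
  let good : P → Prop := fun ρ => (lang 𝔅 hB).live ρ.2.2.1.1 ∧
    ∀ i, (lang 𝔅 hB).P ρ.2.2.1.1 ρ.2.2.1.2 (fun j => (ρ.2.2.2 j i : K))
  have hex : ∀ ρ : P, ∃ (w : Fin (σ.ar ρ.2.2.1.1) → Word c) (q : ℚ), good ρ →
      𝔅.rel ρ.2.2.1.1 w ∧
      (∀ i j, ρ.2.2.1.2 i = true → ρ.2.2.1.2 j = true → Agr (w i) (w j) q) ∧
      ∀ i, ρ.2.2.1.2 i = true → (w i).1 q = (f ρ.1 ρ.2.1 (ρ.2.2.2 i) : K) := by
    intro ρ
    by_cases hg : good ρ
    · have h1 : (lang 𝔅 hB).P ρ.2.2.1.1 ρ.2.2.1.2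
          (fun j => (f ρ.1 ρ.2.1 (ρ.2.2.2 j) : K)) :=
        hpol ρ.1 ρ.2.1 ρ.2.2.1 ρ.2.2.2 (fun i _ => hg.2 i) hg.1
      obtain ⟨w, hw, q, h2, h3⟩ := h1
      exact ⟨w, q, fun _ => ⟨hw, h2, h3⟩⟩
    · exact ⟨fun _ => ⟨c, by simp⟩, 0, fun h => absurd h hg⟩
  choose w q hwq using hex
  obtain ⟨B, hBf, hB0, hV⟩ := trunk hMOV P (fun ρ => σ.ar ρ.2.2.1.1) w q
    (fun ρ => ρ.2.2.1.2) good (fun ρ hg => (hwq ρ hg).2.1) (D.io 0 : K)
  have hV' : ∀ ρ : P, ∃ V : Fin (σ.ar ρ.2.2.1.1) → Word c, (good ρ → SameT (w ρ) V) ∧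
      ∀ j, ρ.2.2.1.2 j = true → Q B (V j) (f ρ.1 ρ.2.1 (ρ.2.2.2 j) : K) (D.io 0 : K) := by
    intro ρ
    by_cases hg : good ρ
    · obtain ⟨V, h1, h2⟩ := hV ρ hg
      refine ⟨V, fun _ => h1, fun j hj => ?_⟩
      have h3 := h2 j hj
      rwa [(hwq ρ hg).2.2 j hj] at h3
    · choose V h2 using fun j : Fin (σ.ar ρ.2.2.1.1) =>
        simple hBf hB0 (f ρ.1 ρ.2.1 (ρ.2.2.2 j) : K) (D.io 0 : K)
      exact ⟨V, fun h => absurd h hg, fun j _ => h2 j⟩
  choose V hV1 hV2 using hV'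
  choose A hA using fun (a b : K) => simple hBf hB0 a b
  let Φ : El (mk σ) U G p I → Word c := fun x => match x with
    | .main v s => A (D.io s : K) (if v = 1 ∧ s = 0 then (D.io 1 : K) else (D.io 0 : K))
    | .site _ α β t => A (f α β t : K) (D.io 0 : K)
    | .fresh _ α β R t j => V (α, β, ⟨R, t⟩) j
  have hmain : ∀ v s, Q B (Φ (.main v s)) (D.io s : K)
      (if (El.main v s : El (mk σ) U G p I) = .main 1 0 then (D.io 1 : K) else (D.io 0 : K)) := by
    intro v s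
    have h1 := hA (D.io s : K) (if v = 1 ∧ s = 0 then (D.io 1 : K) else (D.io 0 : K))
    have h2 : ((El.main v s : El (mk σ) U G p I) = .main 1 0) ↔ (v = 1 ∧ s = 0) := by
      constructor
      · intro e
        injection e with e1 e2
        exact ⟨e1, e2⟩
      · rintro ⟨rfl, rfl⟩
        rfl
    simp only [h2]
    exact h1
  have hsite : ∀ v α β t, Q B (Φ (.site v α β t)) (f α β t : K) (D.io 0 : K) :=
    fun v α β t => hA _ _
  -- the ties
  have hTie : ∀ a w', Tie D g h 0 a w' → ∃ ℓ : K, Q B (Φ a) ℓ (D.io 0 : K) ∧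
      Q B (Φ w') ℓ (if w' = .main 1 0 then (D.io 1 : K) else (D.io 0 : K)) := by
    intro a w' hT
    cases hT with
    | f v α β R t j hj =>
      refine ⟨(f α β (t j) : K), hV2 (α, β, ⟨R, t⟩) j hj, ?_⟩
      rw [if_neg (by intro e; cases e)]
      exact hsite v α β (t j)
    | u v α β s =>
      refine ⟨(D.io s : K), ?_, hmain _ _⟩
      have h1 := hsite v α β (D.u s)
      rwa [(hf α β s).1] at h1
    | x v α β s =>
      refine ⟨(D.io (s + α) : K), ?_, hmain _ _⟩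
      have h1 := hsite v α β (D.x s)
      rwa [(hf α β s).2.1] at h1
    | y v α β s =>
      refine ⟨(D.io (s + β) : K), ?_, hmain _ _⟩
      have h1 := hsite v α β (D.y s)
      rwa [(hf α β s).2.2.1] at h1
    | z v α β s =>
      refine ⟨(D.io (s + α + β - 0) : K), ?_, hmain _ _⟩
      have h1 := hsite v α β (D.z s)
      rwa [(hf α β s).2.2.2, ← sub_zero (s + α + β)] at h1
  refine ⟨Φ, ?_⟩
  intro R T hT
  rcases hT with ⟨hR, s, v, α, β, t, ht, rfl⟩ | ⟨rfl, a, w', hTe, rfl⟩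
  · have hg : good (α, β, ⟨(⟨R, s⟩ : (mk σ).S), t⟩) := ⟨hR, ht⟩
    exact hB R _ _ (hV1 _ hg) (hwq _ hg).1
  · obtain ⟨h3, hC3⟩ := hC
    rw [hC3]
    obtain ⟨ℓ, ha, hw⟩ := hTe |> hTie a w'
    have e0 : (trip (anch w') a w' : Fin (σ.ar R) → El (mk σ) U G p I) (Fin.cast h3 0) =
        anch w' := by simp [trip]
    have e1 : (trip (anch w') a w' : Fin (σ.ar R) → El (mk σ) U G p I) (Fin.cast h3 1) = a := by
      simp [trip]
    have e2 : (trip (anch w') a w' : Fin (σ.ar R) → El (mk σ) U G p I) (Fin.cast h3 2) = w' := by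
      simp [trip]
    rw [e0, e1, e2]
    by_cases hw1 : w' = .main 1 0
    · have h4 : anch w' = (El.main 1 1 : El (mk σ) U G p I) := by simp [anch, hw1]
      rw [h4]
      have h5 := hmain (1 : G) (1 : ZMod p)
      refine Q.split0 h5 ha hw ?_
      have h6 : ℓ = (D.io 0 : K) := by
        have h7 := hmain (1 : G) (0 : ZMod p)
        rw [hw1] at hw
        exact hw.2.1.symm.trans h7.2.1
      rw [h6]
      exact hio
    · have h4 : anch w' = (El.main 1 0 : El (mk σ) U G p I) := by simp [anch, hw1]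
      rw [h4]
      have h5 := hmain (1 : G) (0 : ZMod p)
      rw [if_pos rfl] at h5
      rw [if_neg hw1] at hw
      by_cases h6 : (D.io 0 : K) = ℓ
      · rw [← h6] at ha hw
        exact Q.split1 h5 ha hw hio
      · exact Q.split0 h5 ha hw h6

end Pool.Agent.Work.MP_8dbde4_lc.Bra
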