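import Pool.Agent.Work.MP_8dbde4_lc.Bra.Stmts

/-!
The two forms of primitive positive definability.
-/

set_option autoImplicit false
open Classical

namespace Pool.Agent.Work.MP_8dbde4_lc.Bra

open Pool.Agent.Work.MP_8dbde4_lc.TS
open Pool.Agent.Work.MP_8dbde4_lc.Tree (Word Agr Sp Cc SameT)
open Pool.Agent.Work.MP_8dbde4_lc.Phy (PP Hom)

/-- With an injective map `m` no equalities are needed. -/
theorem locPP_of {σ : Sig} {B : Type} (𝔅 : Str σ B) {n : ℕ} {D : Type} [Finite D] (𝔇 : Str σ D)
    (m : Fin n → D) (hm : Function.Injective m) :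
    Loc.PP 𝔅 (fun v => ∃ f : D → B, Hom 𝔇 𝔅 f ∧ ∀ x, v x = f (m x)) := by
  haveI := Fintype.ofFinite D
  let E := {d : D // d ∉ Set.range m}
  haveI : Fintype E := Fintype.ofFinite E
  let e₁ : E ≃ Fin (Fintype.card E) := Fintype.equivFin E
  -- the variable of `d`
  let e : D ≃ Fin n ⊕ Fin (Fintype.card E) :=
    (Equiv.Set.sumCompl (Set.range m)).symm.trans
      (Equiv.sumCongr (Equiv.ofInjective m hm).symm e₁)
  have he : ∀ x, e (m x) = Sum.inl x := by
    intro x
    show (Equiv.sumCongr (Equiv.ofInjective m hm).symm e₁)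
      ((Equiv.Set.sumCompl (Set.range m)).symm (m x)) = Sum.inl x
    rw [Equiv.Set.sumCompl_symm_apply_of_mem (Set.mem_range_self x)]
    simp [Equiv.ofInjective_symm_apply]
  have hes : ∀ x, e.symm (Sum.inl x) = m x := fun x => by rw [← he x, Equiv.symm_apply_apply]
  refine ⟨Fintype.card E, ⟨fun R s => 𝔇.rel R (fun j => e.symm (s j))⟩, fun t => ⟨?_, ?_⟩⟩
  · rintro ⟨f, hf, ht⟩
    refine ⟨fun i => f (e.symm (Sum.inr i)), fun R s hs => ?_⟩
    have h1 := hf R _ hs
    refine cast (congrArg (𝔅.rel R) ?_) h1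
    funext j
    rcases hj : s j with x | i
    · show f (e.symm (Sum.inl x)) = t x
      rw [hes, ht]
    · rfl
  · rintro ⟨u, hu⟩
    refine ⟨fun d => Sum.elim t u (e d), fun R s hs => ?_, fun x => ?_⟩
    · have h1 := hu R (fun j => e (s j)) (by simpa using hs)
      exact h1
    · show t x = Sum.elim t u (e (m x))
      rw [he]
      rfl

/-- The split relation. -/
theorem locPP_CC {σ : Sig} {K : Type} {c : ℚ → K} {𝔅 : Str σ (Word c)} (hK : ∃ a b : K, a ≠ b)
    (h : PP 𝔅 (CC (c := c))) : Loc.PP 𝔅 (CC (c := c)) := by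
  obtain ⟨D, _, 𝔇, m, hm⟩ := h
  have hinj : Function.Injective m := by
    -- three different words
    obtain ⟨a, b, hab⟩ := hK
    have ho : ∀ k : K, ∃ k' : K, k' ≠ k := by
      intro k
      by_cases h : a = k
      · exact ⟨b, fun h' => hab (h.trans h'.symm)⟩
      · exact ⟨a, h⟩
    choose o ho using ho
    let w : ℚ → Word c := fun q => ⟨Function.update c q (o (c q)), by
      refine (Set.finite_singleton q).subset (fun r hr => ?_)
      by_contra h
      exact hr (Function.update_of_ne h _ _)⟩
    let w₀ : Word c := ⟨c, by simp⟩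
    have e0 : ∀ q, (w q).1 q = o (c q) := fun q => Function.update_self _ _ _
    have e1 : ∀ q r, r ≠ q → (w q).1 r = c r := fun q r h => Function.update_of_ne h _ _
    have hcc : CC (c := c) ![w 0, w₀, w 1] := by
      refine (⟨0, ?_, ?_, ?_, ?_⟩ : Cc (w 0) w₀ (w 1))
      · intro r hr
        exact e1 0 r hr.ne
      · intro r hr
        rw [e1 0 r hr.ne, e1 1 r (by intro h; rw [h] at hr; norm_num at hr)]
      · show c 0 = _
        rw [e1 1 0 (by norm_num)]
      · show (w 0).1 0 ≠ c 0
        rw [e0]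
        exact ho _
    obtain ⟨f, _, hf⟩ := (hm _).1 hcc
    have h01 : w 0 ≠ w₀ := by
      intro h
      have := congrFun (congrArg Subtype.val h) 0
      rw [e0] at this
      exact ho _ this
    have h12 : w₀ ≠ w 1 := by
      intro h
      have := congrFun (congrArg Subtype.val h) 1
      rw [e0] at this
      exact ho _ this.symm
    have h02 : w 0 ≠ w 1 := by
      intro h
      have := congrFun (congrArg Subtype.val h) 0
      rw [e0, e1 1 0 (by norm_num)] at this
      exact ho _ this
    have hv : Function.Injective (![w 0, w₀, w 1] : Fin 3 → Word c) := by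
      intro i j hij
      fin_cases i <;> fin_cases j
      · rfl
      · exact absurd hij h01
      · exact absurd hij h02
      · exact absurd hij.symm h01
      · rfl
      · exact absurd hij h12
      · exact absurd hij.symm h02
      · exact absurd hij.symm h12
      · rfl
    intro i j hij
    apply hv
    rw [hf i, hf j, hij]
  have h2 := locPP_of 𝔅 𝔇 m hinj
  have h3 : (fun v : Fin 3 → Word c => ∃ f : D → Word c, Hom 𝔇 𝔅 f ∧ ∀ x, v x = f (m x)) =
      CC (c := c) := funext fun v => propext (hm v).symm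
  rwa [h3] at h2

end Pool.Agent.Work.MP_8dbde4_lc.Bra
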