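import Pool.Agent.Work.MP_8dbde4_lc.Loc.Final
import Pool.Agent.Work.MP_8dbde4_lc.Phy.Main
import Pool.Agent.Work.MP_8dbde4_lc.Bra.Raw
import Pool.Agent.Work.MP_8dbde4_lc.Bra.PPL
import Pool.Agent.Work.MP_8dbde4_lc.Bra.I_SOL
import Pool.Agent.Work.MP_8dbde4_lc.Bra.I_MOV
import Pool.Agent.Work.MP_8dbde4_lc.Bra.I_IPP
import Pool.Agent.Work.MP_8dbde4_lc.Bra.I_BFS
import Pool.Agent.Work.MP_8dbde4_lc.Bra.I_BF2
import Pool.Agent.Work.MP_8dbde4_lc.Bra.I_BIN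
import Pool.Agent.Work.MP_8dbde4_lc.Bra.I_EMB
import Pool.Agent.Work.MP_8dbde4_lc.Bra.I_IOT
import Pool.Agent.Work.MP_8dbde4_lc.Bra.I_PC2
import Pool.Agent.Work.MP_8dbde4_lc.Bra.I_OPK
import Pool.Agent.Work.MP_8dbde4_lc.Bra.I_AUK

/-!
# Languages over trees with finite branching numbers: the main theorem
-/

set_option autoImplicit false
open Classical

namespace Pool.Agent.Work.MP_8dbde4_lc.Bra

open Pool.Agent.Work.MP_8dbde4_lc.TS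
open Pool.Agent.Work.MP_8dbde4_lc.Tree (Word Agr Sp Cc SameT El DenseW)
open Pool.Agent.Work.MP_8dbde4_lc.Loc (lang JJ GS IsC mk Pair)
open Pool.Agent.Work.MP_8dbde4_lc.Phy (PP Hom)

variable {σ : Sig} {K : Type} {c : ℚ → K}

/-- The negative part for arbitrary invariant structures. -/
theorem pairs_inv (σ : Sig) (K : Type) [Finite K] (c : ℚ → K) (𝔅 : Str σ (Word c))
    (hB : Loc.Inv 𝔅) (C : σ.S) (hC : IsC 𝔅 C) (hg : ¬ GS (lang 𝔅 hB)) (k : ℕ) :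
    Pair (CSP 𝔅) k := by
  obtain ⟨U, G, _, _, g, h, p, I, _, D, hp, hD, ⟨Z, hZ, hZ'⟩, hn⟩ :=
    raw_of (Tree.PGRP_pf Tree.PING_pf) (Tree.DEN_pf Tree.RED_pf)
      (Tree.GAD_pf (Tree.AFF_pf Tree.MALT_pf Tree.COMM_pf) (Tree.GA_pf Tree.INJ_pf)
        (Tree.GU_pf Tree.INJ_pf)) Tree.TWIN_pf Loc.J1_pf (Loc.JZ_pf (Tree.EXT_pf Tree.CLO_pf))
      Loc.DESC_pf Loc.RES1_pf σ K (lang 𝔅 hB) c C (Loc.ISC_pf σ K c 𝔅 hB C hC) hg k
  have : NeZero p := ⟨hp.ne_zero⟩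
  refine ⟨_, _, inferInstance, inferInstance, JJ (lang 𝔅 hB) C U g h D 0,
    JJ (lang 𝔅 hB) C U g h D 1, Z, hZ, hZ', ?_, fun h1 => hn ?_⟩
  · exact SOL_pf MOV_pf σ K c 𝔅 hB C U G g h p I D inferInstance inferInstance inferInstance
      hp.ne_zero hC hD
  · obtain ⟨f, hf⟩ := h1
    exact ⟨f, fun R t ht => (Loc.LOC_pf σ K c 𝔅 hB).1 R _ (hf R t ht)⟩

theorem noPairs_of {B : Type} {𝔅 : Str σ B} (h : InFPC (CSP 𝔅)) : NoPairs 𝔅 :=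
  fun h1 => Tree.GAME_pf σ (CSP 𝔅) h1 h

/-- Every nonempty primitive positive definable set has a binary member. -/
theorem exists_bin [Finite K] {𝔅 : Str σ (Word c)} (hK : ∃ a b : K, a ≠ b) (hc : DenseW c)
    (hL : BLang 𝔅) (h : InFPC (CSP 𝔅)) (X : Type) [Finite X] (S : (X → Word c) → Prop)
    (hS : PP 𝔅 S) (hne : ∃ w, S w) : ∃ w, S w ∧ BinOn Set.univ w := by
  refine BIN_pf Phy.PPB_pf σ K c 𝔅 hL.ppC X (fun S Y => ?_) S hS hne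
  exact BF2_pf σ K c 𝔅 (BFS_pf (Loc.HOM_pf Tree.OPE_pf Tree.CTB_pf) IPP_pf Loc.RES1_pf Loc.LOC_pf
    pairs_inv σ K c 𝔅 hL.inv.inv hc (locPP_CC hK hL.ppC) (noPairs_of h)) X S Y

/-- The solution set of an instance. -/
theorem pp_sol {B : Type} (𝔅 : Str σ B) (A : Type) [Finite A] (𝔄 : Str σ A) :
    PP 𝔅 (fun f : A → B => Hom 𝔄 𝔅 f) :=
  ⟨A, inferInstance, 𝔄, id, fun v => ⟨fun hv => ⟨v, hv, fun _ => rfl⟩, fun ⟨f, hf, he⟩ => by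
    have : v = f := funext he
    rwa [this]⟩⟩

/-- The subtree has the same splits. -/
theorem same_iota {ι : Word c₂ → Word c} (hi : Function.Injective ι)
    (hι : ∀ x y z, Cc x y z ↔ Cc (ι x) (ι y) (ι z)) {X : Type} (u : X → Word c₂) :
    Same u (fun x => ι (u x)) :=
  ⟨fun _ _ => ⟨fun h => congrArg ι h, fun h => hi h⟩, fun _ _ _ => hι _ _ _⟩

/-- The constraint satisfaction problem is that of the restriction to the binary subtree. -/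
theorem csp_pull [Finite K] {𝔅 : Str σ (Word c)} (hK : ∃ a b : K, a ≠ b) (hc : DenseW c)
    (hL : BLang 𝔅) (h : InFPC (CSP 𝔅)) {ι : Word c₂ → Word c} (hi : Function.Injective ι)
    (hι : ∀ x y z, Cc x y z ↔ Cc (ι x) (ι y) (ι z)) (A : Type) [Finite A] (𝔄 : Str σ A) :
    CSP 𝔅 A 𝔄 ↔ CSP (pull 𝔅 ι) A 𝔄 := by
  constructor
  · intro h1
    obtain ⟨w, hw, hb⟩ := exists_bin hK hc hL h A _ (pp_sol 𝔅 A 𝔄) h1
    obtain ⟨u, hu⟩ := EMB_pf K c A w hb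
    refine ⟨u, fun R t ht => ?_⟩
    have h2 : Same w (fun x => ι (u x)) := hu.trans (same_iota hi hι u)
    exact hL.inv R _ _ (h2.comp t) (hw R t ht)
  · rintro ⟨u, hu⟩
    exact ⟨fun a => ι (u a), fun R t ht => hu R t ht⟩

/-- The restriction to the binary subtree is a phylogeny language. -/
theorem plang_pull [Finite K] {𝔅 : Str σ (Word c)} (hK : ∃ a b : K, a ≠ b) (hc : DenseW c)
    (hL : BLang 𝔅) (h : InFPC (CSP 𝔅)) {ι : Word c₂ → Word c} (hi : Function.Injective ι)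
    (hι : ∀ x y z, Cc x y z ↔ Cc (ι x) (ι y) (ι z)) : Phy.PLang (pull 𝔅 ι) := by
  refine ⟨fun R v w hvw hv => ?_, ?_⟩
  · have h1 : Same v w := ⟨fun x y => hvw.1 x trivial y trivial,
      fun x y z => hvw.2 x trivial y trivial z trivial⟩
    have h2 : Same (fun j => ι (v j)) (fun j => ι (w j)) :=
      (same_iota hi hι v).symm.trans (h1.trans (same_iota hi hι w))
    exact hL.inv R _ _ h2 hv
  · exact PC2_pf Phy.PPB_pf Phy.AMA_ok EMB_pf σ K c 𝔅 ι hi hι hL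
      (fun X _ S hS hne => exists_bin hK hc hL h X S hS hne)

theorem inFP_congr {𝒦 𝒦' : Class σ} (h : ∀ (A : Type) [Finite A] (𝔄 : Str σ A), 𝒦 A 𝔄 ↔ 𝒦' A 𝔄)
    (h1 : InFP 𝒦) : InFP 𝒦' := by
  obtain ⟨φ, hφ⟩ := h1
  exact ⟨φ, fun A _ _ 𝔄 v => (hφ A 𝔄 v).trans (h A 𝔄)⟩

theorem inFPC_congr {𝒦 𝒦' : Class σ} (h : ∀ (A : Type) [Finite A] (𝔄 : Str σ A), 𝒦 A 𝔄 ↔ 𝒦' A 𝔄)
    (h1 : InFPC 𝒦) : InFPC 𝒦' := by
  obtain ⟨φ, hφ⟩ := h1
  exact ⟨φ, fun A _ _ 𝔄 v ν => (hφ A 𝔄 v ν).trans (h A 𝔄)⟩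

/-- The classification: the problem is in FPC iff it is the problem of the restriction to the
binary subtree, and this restriction is Horn over first splits. -/
theorem class_dense [Finite K] {𝔅 : Str σ (Word c)} (hK : ∃ a b : K, a ≠ b) (hc : DenseW c)
    (hL : BLang 𝔅) {ι : Word c₂ → Word c} (hi : Function.Injective ι)
    (hι : ∀ x y z, Cc x y z ↔ Cc (ι x) (ι y) (ι z)) : InFPC (CSP 𝔅) ↔
      (∀ R, Phy.HornC ((pull 𝔅 ι).rel R)) ∧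
        ∀ (A : Type) [Finite A] (𝔄 : Str σ A), CSP 𝔅 A 𝔄 ↔ CSP (pull 𝔅 ι) A 𝔄 := by
  constructor
  · intro h
    have h1 := csp_pull hK hc hL h hi hι
    exact ⟨Phy.hornC_of_inFPC _ (plang_pull hK hc hL h hi hι) (inFPC_congr h1 h), h1⟩
  · rintro ⟨h1, h2⟩
    exact Phy.F2C_pf σ _ (inFP_congr (fun A _ 𝔄 => (h2 A 𝔄).symm) (Phy.inFP_of_hornC _ h1))

theorem inFP_of_class {𝔅 : Str σ (Word c)} {ι : Word c₂ → Word c}
    (h : (∀ R, Phy.HornC ((pull 𝔅 ι).rel R)) ∧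
      ∀ (A : Type) [Finite A] (𝔄 : Str σ A), CSP 𝔅 A 𝔄 ↔ CSP (pull 𝔅 ι) A 𝔄) : InFP (CSP 𝔅) :=
  inFP_congr (fun A _ 𝔄 => (h.2 A 𝔄).symm) (Phy.inFP_of_hornC _ h.1)

end Pool.Agent.Work.MP_8dbde4_lc.Bra
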