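import Pool.Agent.Work.MP_8dbde4_lc.Bra.Defs

/-!
Statements of the block Bra of MP_8dbde4_lc. Every docstring contains the proof.

Theorem PHK: let `K` be finite, `c` dense, and let `𝔅` be a structure on `Word c` whose relations
depend only on the splits and in which the split relation is primitive positive definable. If
`CSP 𝔅` is in FPC then it is in FP. Moreover, in this case `CSP 𝔅` is the constraint satisfaction
problem of the restriction of `𝔅` to the binary subtree (to which theorem PH applies).
-/

set_option autoImplicit false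
open Classical

namespace Pool.Agent.Work.MP_8dbde4_lc.Bra

open Pool.Agent.Work.MP_8dbde4_lc.TS
open Pool.Agent.Work.MP_8dbde4_lc.Tree (Word Agr Sp Cc SameT Fam Gad El anch trip Den row BFSys)
open Pool.Agent.Work.MP_8dbde4_lc.Loc (MLang lang JJ GS IsC mk Pair fam Tie core)
open Pool.Agent.Work.MP_8dbde4_lc.Phy (PP Hom)
open Pool.Agent.Work.MP_8dbde4_lc.HP (add adds)

/-! ### The instance `J_0` is solvable in `𝔅` itself -/

/-- Moving a tuple. `w` and `V` are tuples of words, `π` is strictly increasing; at the places `x ∈ Δ` the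
letters of `w` are those of `V` at `π x`, and at all other places there is no split. Then
`Agr (w i) (w j) x ↔ Agr (V i) (V j) (π x)` for all `x` (for `q' < π x`: if `q' = π x'`, `x' ∈ Δ`, then `x' < x`),
and different words split at a place in `Δ`, resp. in `π '' Δ` (the set of the places where two words
differ is finite and has a least element, or use the place which is given). -/
def S_MOV : Prop := ∀ (K : Type) (c : ℚ → K) (n : ℕ) (w V : Fin n → Word c) (π : ℚ → ℚ)
  (Δ : Set ℚ), StrictMono π → (∀ x ∈ Δ, ∀ i, (V i).1 (π x) = (w i).1 x) →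
  (∀ x ∉ Δ, ∀ i j, (w i).1 x = (w j).1 x) → (∀ q ∉ π '' Δ, ∀ i j, (V i).1 q = (V j).1 q) →
  SameT w V

/-- The instance `J_0` is solvable in `𝔅` (compare `S_J0` of the block Loc, which is for the local
closure `(lang 𝔅 hB).str c`, and `S_SA0` of the block Phy). Write `L = lang 𝔅 hB`; `k₀ = io 0`,
`k₁ = io 1` (different), `f_(α,β)` from `Gad.OK.sol`. A fresh tuple `r = (v, α, β, (R, s), t)` is called
good if `R` is live and `L.P R s (fun j => t j i)` for all `i`; then `j ↦ f_(α,β) (t j)` is in `L.P R s`, i.e.
there are `w^r` in the relation `R` of `𝔅` and `q_r` such that the `w^r_j`, `s j`, agree below `q_r` and have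
the letters `f_(α,β) (t j)` at `q_r`. Let `Δ_r` be the finite set of the places where some `w^r_j` differs
from `c`, together with `q_r`. Number the good `r` injectively by `n_r : ℕ` (`El`, so the set of the
tuples `r`, is finite, or: it is countable); `π_r` is the increasing map with
`π_r x = - (n_r + 1) - (q_r - x) / (1 + (q_r - x))` for `x < q_r` (in the interval
`(- n_r - 2, - n_r - 1)`), `π_r q_r = 0`, `π_r x = 1 + (x - q_r)` for `x > q_r`. The trunk: for `q < 0` let
`B q = w^r_j x` if `q = π_r x` with `r` good, `x ∈ Δ_r`, `x < q_r`, where `j` is any coordinate with `s j`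
(`B q = c q` if there is none or if `q` is not of this form); `r` and `x` are unique. `B` differs from `c` in
finitely many places. All the following words are `B` below `0`, except for the dummies:
`M v s`: `io s` at `0`, `k₁` at `1` if `(v, s) = (1, 0)` and `k₀` at `1` otherwise, `c` in `(0, 1)` and above
`1`. `A v α β t`: `f_(α,β) t` at `0`, `k₀` at `1`, `c` otherwise. `V^r_j` for a good `r`: at `π_r x`,
`x ∈ Δ_r`, it has the letter `w^r_j x`; it has `k₀` at `1`, and elsewhere it is `B` below `0` and `c` above `0`.
`V^r_j = A v α β (t j)` if `r` is not good. `V^r` is in the relation `R`: S_MOV and `hB`. For `s j = true`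
the word `V^r_j` is `B` below `0` and has the letter `f_(α,β) (t j)` at `0` and `k₀` at `1`, `c` in between.
Ties `(anch w, a, w)`: `a` and `w` have the same letter at `0` and, unless `w = main 1 0`, the letter
`k₀` at `1`, and are equal to `B` below `0` and to `c` in `(0, 1)`. If `w ≠ main 1 0` the anchor is
`main 1 0` with the letter `k₁` at `1`: the split is at `0` or at `1`. If `w = main 1 0` the anchor is
`main 1 1` with the letter `io 1` at `0`: the split is at `0`. The symbol `C` is interpreted by the
split relation (`IsC`); the fresh tuples for `R = C` are treated as for the other symbols. -/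
def S_SOL : Prop := S_MOV → ∀ (σ : Sig) (K : Type) (c : ℚ → K) (𝔅 : Str σ (Word c))
  (hB : Loc.Inv 𝔅) (C : σ.S) (U : Set K) (G : Type) [Group G] (g h : G) (p : ℕ) (I : Type)
  (D : Gad U p I), Finite G → Finite I → Finite K → p ≠ 0 → IsC 𝔅 C →
  D.OK (fam (lang 𝔅 hB) U) → CSP 𝔅 _ (JJ (lang 𝔅 hB) C U g h D 0)

/-! ### Binary solutions -/

/-- Primitive positive definable sets depend only on the labelled splits. Let `S v`, `SameT v w`, and
let `f` be a homomorphism with `v x = f (m x)`. The map `v x ↦ w x` is an isomorphism of finite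
substructures of `Loc.plus 𝔅` (`SameT` for `v`, `w`; for the relations of `𝔅` use `Inv 𝔅`: a tuple
`v ∘ e` and the tuple `w ∘ e` have the same splits), so by `S_HOM` it extends to an automorphism `g`;
`g ∘ f` is a homomorphism. -/
def S_IPP : Prop := Loc.S_HOM → ∀ (σ : Sig) (K : Type) [Finite K] (c : ℚ → K)
  (𝔅 : Str σ (Word c)), Loc.Inv 𝔅 → Tree.DenseW c → ∀ (n : ℕ) (S : (Fin n → Word c) → Prop),
  PP 𝔅 S → ∀ v w : Fin n → Word c, SameT v w → S v → S w

/-- The class of structures for which the conclusion holds: there is no number of pebbles with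
which all pairs can be distinguished. -/
def NoPairs {σ : Sig} {B : Type} (𝔅 : Str σ B) : Prop := ¬ ∀ k, Pair (CSP 𝔅) k

/-- A good first split of a primitive positive definable set which contains no constant tuples. Here
`S` is defined by `PP` with an injective map `m`. Let `𝔅' = adds (adds 𝔅 CC) S`; it is invariant
(`Loc.inv_adds`, `S_IPP`); if GS fails for `lang 𝔅'` then `hN` gives pairs for `CSP 𝔅'`, and by
`Loc.pair_pp` twice (`Loc.PP` for `S` in `adds 𝔅 CC`: choose a bijection between `D` and `Fin n ⊕ Fin N` which
maps `m i` to `inl i`; for `CC` in `𝔅` the map is given as injective, too) pairs for `CSP 𝔅`, contradiction.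
So GS holds. The instance `𝔄` on `Fin n` with the single constraint `none id` (`S`) is solvable, so
`Res` holds by `S_RES1` (every member of a relation satisfies its conditions: first part of
`S_LOC`) and it has a strict constraint on `univ`: GS gives `a ≠ b` and a non-constant step `h` with
values `a`, `b`, i.e. `w ∈ S` and `q` such that the `w i` agree below `q` and have the letters `h i` at `q`:
`Bi univ w (fun i => decide (h i = a))`. -/
def S_BFS : Prop := Loc.S_HOM → S_IPP → Loc.S_RES1 → Loc.S_LOC →
  (∀ (σ : Sig) (K : Type) [Finite K] (c : ℚ → K) (𝔅 : Str σ (Word c)) (hB : Loc.Inv 𝔅) (C : σ.S),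
    IsC 𝔅 C → ¬ GS (lang 𝔅 hB) → ∀ k, Pair (CSP 𝔅) k) →
  ∀ (σ : Sig) (K : Type) [Finite K] (c : ℚ → K) (𝔅 : Str σ (Word c)), Loc.Inv 𝔅 →
  Tree.DenseW c → Loc.PP 𝔅 (CC (c := c)) → NoPairs 𝔅 →
  ∀ (n : ℕ) (D : Type) [Finite D] (𝔇 : Str σ D) (m : Fin n → D), Function.Injective m →
  (∃ f : D → Word c, Hom 𝔇 𝔅 f) → (∀ f : D → Word c, Hom 𝔇 𝔅 f → ∃ i j, f (m i) ≠ f (m j)) →
  ∃ f : D → Word c, Hom 𝔇 𝔅 f ∧ ∃ h, Bi Set.univ (fun i => f (m i)) h

/-- A binary first split on `Y`. Let `S` be given by `D`, `𝔇`, `m`; let `Y'` be the image of `Y` under `m` (a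
finite set, enumerate it by `Fin n`, an injective map to `D`); `hB` gives a homomorphism with a binary
first split on `Y'`, and so on `Y` (compose `h` with `m`; extend it arbitrarily outside `Y'`). -/
def S_BF2 : Prop := ∀ (σ : Sig) (K : Type) (c : ℚ → K) (𝔅 : Str σ (Word c)),
  (∀ (n : ℕ) (D : Type) [Finite D] (𝔇 : Str σ D) (m : Fin n → D), Function.Injective m →
  (∃ f : D → Word c, Hom 𝔇 𝔅 f) → (∀ f : D → Word c, Hom 𝔇 𝔅 f → ∃ i j, f (m i) ≠ f (m j)) →
  ∃ f : D → Word c, Hom 𝔇 𝔅 f ∧ ∃ h, Bi Set.univ (fun i => f (m i)) h) →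
  ∀ (X : Type) (S : (X → Word c) → Prop) (Y : Set X), PP 𝔅 S → (∃ w, S w) →
  (∀ w, S w → ∃ x ∈ Y, ∃ y ∈ Y, w x ≠ w y) → ∃ w, S w ∧ ∃ h, Bi Y w h

/-- Binary members. Claim by strong induction on `Y.ncard`: for every nonempty primitive positive
definable `S` there is a nonempty primitive positive definable `S' ⊆ S` all of whose members are binary
on `Y`. If some member of `S` is constant on `Y` let `S'` be the set of those members (S_PPB: finite
intersections of equalities). Otherwise `h2` gives `h`; `S₁ w := S w ∧ Bi Y w h` is PP (S_PPB (3), (7) with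
`CC`) and not empty; apply the induction hypothesis to `{x ∈ Y : h x = false}` and `S₁`, and then to
`{x ∈ Y : h x = true}` and the result. A triple of elements of `Y` which is not contained in one of
the two sides is split by `Bi`. -/
def S_BIN : Prop := Phy.S_PPB → ∀ (σ : Sig) (K : Type) (c : ℚ → K) (𝔅 : Str σ (Word c)),
  PP 𝔅 (CC (c := c)) → ∀ (X : Type) [Finite X],
  (∀ (S : (X → Word c) → Prop) (Y : Set X), PP 𝔅 S → (∃ w, S w) →
    (∀ w, S w → ∃ x ∈ Y, ∃ y ∈ Y, w x ≠ w y) → ∃ w, S w ∧ ∃ h, Bi Y w h) →
  ∀ S : (X → Word c) → Prop, PP 𝔅 S → (∃ w, S w) → ∃ w, S w ∧ BinOn Set.univ w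

/-- Binary tuples are found in the binary tree. Enumerate `X` (or choose a linear order) and let
`r(i, x)` be the least `j` with `Agr (w j) (w i) x`; `u_i` has the letter `true` at `x` iff
`w_i x ≠ w_(r(i, x)) x`. Finitely many places (those where two of the words differ). For `i, i'` with
`Agr (w i) (w i') x` the reference `r` is the same, and `u_i x = u_(i') x` iff `w_i x = w_(i') x`: if both
differ from the reference `w_r x` and from each other, then `r, i, i'` contradict `BinOn` (no `Cc`
among three words which split at the same place with three letters; they are not all equal). So the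
places of the first differences are the same. -/
def S_EMB : Prop := ∀ (K : Type) (c : ℚ → K) (X : Type) [Finite X] (w : X → Word c),
  BinOn Set.univ w → ∃ u : X → Word c₂, Same w u

/-- The binary subtree. `ι x` is `c` modified at the places `q` with `x q = true` by a map `K → K`
without fixed points. -/
def S_IOT : Prop := ∀ (K : Type) (c : ℚ → K), (∃ a b : K, a ≠ b) →
  ∃ ι : Word c₂ → Word c, Function.Injective ι ∧ ∀ x y z, Cc x y z ↔ Cc (ι x) (ι y) (ι z)

/-- The split relation is primitive positive definable in the binary subtree. Let `D`, `𝔇`, `m` define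
`CC` in `𝔅`; they define `C3` in `pull 𝔅 ι`. If `f : D → Word c₂` is a homomorphism to `pull 𝔅 ι` then `ι ∘ f` is
a homomorphism to `𝔅`. Let `C3 v`, so `CC (ι ∘ v)`. Let `S` be the set of the homomorphisms `f : 𝔇 → 𝔅` with
`CC (f ∘ m)` and `f (m 1) = f (m 2)`, or `Cc (f (m 1)) (f (m 2)) (f (m 2))` according to whether `v 1 = v 2`; it
is PP (S_PPB) and contains a homomorphism with `f ∘ m = ι ∘ v`. By `hbin` it contains a binary `f`, by
S_EMB there is `u : D → Word c₂` with `Same f u`, so `ι ∘ u` is a homomorphism to `𝔅` (`Same u (ι ∘ u)`,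
`InvU`) and `u ∘ m` has the same splits as `v` (if `v 1 ≠ v 2`: `Cc (v 0) (v 1) (v 2)` and `v 1 ≠ v 2` determine
all the splits). By S_AMA (block Phy) there is `g : D → Word c₂` with the splits of `u` and `g ∘ m = v`. -/
def S_PC2 : Prop := Phy.S_PPB → Phy.S_AMA → S_EMB → ∀ (σ : Sig) (K : Type) (c : ℚ → K)
  (𝔅 : Str σ (Word c)) (ι : Word c₂ → Word c), Function.Injective ι →
  (∀ x y z, Cc x y z ↔ Cc (ι x) (ι y) (ι z)) → BLang 𝔅 →
  (∀ (X : Type) [Finite X] (S : (X → Word c) → Prop), PP 𝔅 S → (∃ w, S w) →
    ∃ w, S w ∧ BinOn Set.univ w) → PP (pull 𝔅 ι) (Phy.C3 (c := c₂))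

/-! ### Homogeneity (for the comparison with first-order definability) -/

/-- One-point extension. If `x = w s` take `y = f s`; if `X` is empty take `y = x`. Otherwise let `q` be the
largest of the places `δ(x, w s)` (`δ`: the first place where two different words differ), `S'` the set
of the `s` with `δ(x, w s) = q`: the words `w s`, `s ∈ S'`, agree with `x` below `q` and have letters
different from `x q` at `q`. Case 1: they have the same letter at `q`. Let `s₀ ∈ S'`, `lo` the largest
`δ(f s, f s₀)` for `s ∉ S'` (if any), `hi` the smallest `δ(f s, f s')` for `s, s' ∈ S'`, `f s ≠ f s'` (if any).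
`lo < hi`: for `s ∉ S'` and `s₁, s₂ ∈ S'` we have `Cc (w s) (w s₁) (w s₂)`, so `Cc (f s) (f s₁) (f s₂)`. Take
`q'` with `lo < q' < hi` and `y = f s₀` below `q'`, `y q' ≠ f s₀ q'` (there are two letters: `x q` and
`w s₀ q`), `y = c` above `q'`. Case 2: `w s₁ q ≠ w s₂ q` for some `s₁, s₂ ∈ S'`. Let `q' = δ(f s₁, f s₂)`.
For all `s ∈ S'` the words `f s` agree with `f s₁` below `q'`, and for `s, s' ∈ S'`:
`f s q' = f s' q'` iff `w s q = w s' q` (one of `s₁`, `s₂` has a letter at `q` different from that of
`s`; use `Cc (w s_i) (w s) (w s')`). So the number of the letters of the `f s`, `s ∈ S'`, at `q'` is that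
of the letters of the `w s` at `q`, which is less than `card K` (`x q` is not among them): there is
another letter `a`. `y = f s₁` below `q'`, `y q' = a`, `y = c` above `q'`. In both cases `y` splits
from `f s`, `s ∉ S'`, where `f s₁` does, and this corresponds to `δ(x, w s) = δ(w s₁, w s)`. (Compare
`S_OPC` of the block Phy, proved in `Phy/I_OPC.lean`, for two letters.) -/
def S_OPK : Prop := ∀ (K : Type) [Finite K] (c : ℚ → K) (X : Type) [Finite X] (w f : X → Word c),
  Same w f → ∀ x : Word c, ∃ y : Word c,
    Same (fun o : Option X => o.elim x w) (fun o : Option X => o.elim y f)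

/-- Sets which depend only on the splits are those which are preserved by all automorphisms of the
split relation (so, by homogeneity, the first-order definable ones). (→) `v` and `g ∘ v` have the
same splits. (←) Back and forth with `S_OPK` on the countable set `Word c` (`S_CTB`), as in
`Phy/I_HMC.lean` and `Phy/I_AUT.lean` (proved, for two letters). -/
def S_AUK : Prop := S_OPK → Tree.S_CTB → ∀ (K : Type) [Finite K] (c : ℚ → K) (X : Type) [Finite X]
  (S : (X → Word c) → Prop), (∀ v w, Same v w → S v → S w) ↔
    ∀ g : Word c ≃ Word c, (∀ x y z, Cc x y z ↔ Cc (g x) (g y) (g z)) →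
      ∀ v, S v → S (fun x => g (v x))

end Pool.Agent.Work.MP_8dbde4_lc.Bra
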