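import Pool.Agent.Work.MP_8dbde4_lc.Bra.Main

/-!
# Change of the default word
-/

set_option autoImplicit false
open Classical

namespace Pool.Agent.Work.MP_8dbde4_lc.Bra

open Pool.Agent.Work.MP_8dbde4_lc.TS
open Pool.Agent.Work.MP_8dbde4_lc.Tree (Word Agr Sp Cc SameT DenseW Homog FinBdd IsReduct RFBH Emb)
open Pool.Agent.Work.MP_8dbde4_lc.Phy (PP Hom)

variable {σ : Sig} {K : Type} {c : ℚ → K}

/-- Invariance under the automorphisms of the split relation. -/
def AutInv {X : Type} (S : (X → Word c) → Prop) : Prop :=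
  ∀ g : Word c ≃ Word c, (∀ x y z, Cc x y z ↔ Cc (g x) (g y) (g z)) →
    ∀ v, S v → S (fun x => g (v x))

/-- change the letters -/
noncomputable def chF (c c' : ℚ → K) (x : Word c) : Word c' :=
  ⟨fun q => Equiv.swap (c q) (c' q) (x.1 q), by
    refine x.2.subset (fun q hq => ?_)
    intro h
    apply hq
    show Equiv.swap (c q) (c' q) (x.1 q) = c' q
    rw [h, Equiv.swap_apply_left]⟩

lemma chF_chF (c c' : ℚ → K) (x : Word c) : chF c' c (chF c c' x) = x := by
  apply Subtype.ext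
  funext q
  show Equiv.swap (c' q) (c q) (Equiv.swap (c q) (c' q) (x.1 q)) = x.1 q
  rw [Equiv.swap_comm (c' q) (c q), Equiv.swap_apply_self]

/-- The isomorphism between the trees for two default words. -/
noncomputable def ch (c c' : ℚ → K) : Word c ≃ Word c' where
  toFun := chF c c'
  invFun := chF c' c
  left_inv := chF_chF c c'
  right_inv := chF_chF c' c

lemma ch_cc (c c' : ℚ → K) (x y z : Word c) : Cc x y z ↔ Cc (ch c c' x) (ch c c' y) (ch c c' z) := by
  have h : ∀ (x y : Word c) (q : ℚ), (ch c c' x).1 q = (ch c c' y).1 q ↔ x.1 q = y.1 q :=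
    fun x y q => (Equiv.swap (c q) (c' q)).injective.eq_iff
  have hA : ∀ (x y : Word c) (q : ℚ), Agr (ch c c' x) (ch c c' y) q ↔ Agr x y q :=
    fun x y q => forall_congr' fun q' => forall_congr' fun _ => h x y q'
  unfold Cc
  refine exists_congr fun q => ?_
  rw [hA, hA, h, ne_eq, ne_eq, h]

/-- Pulling back along a bijection. -/
lemma csp_pull_equiv {B B' : Type} (𝔅 : Str σ B) (e : B' ≃ B) (A : Type) (𝔄 : Str σ A) :
    CSP (pull 𝔅 e) A 𝔄 ↔ CSP 𝔅 A 𝔄 := by
  constructor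
  · rintro ⟨f, hf⟩
    exact ⟨fun a => e (f a), fun R t ht => hf R t ht⟩
  · rintro ⟨f, hf⟩
    refine ⟨fun a => e.symm (f a), fun R t ht => ?_⟩
    show 𝔅.rel R (fun j => e (e.symm (f (t j))))
    simpa using hf R t ht

lemma pp_pull_equiv {B B' X : Type} {𝔅 : Str σ B} (e : B' ≃ B) {S : (X → B) → Prop}
    (h : PP 𝔅 S) : PP (pull 𝔅 e) (fun v : X → B' => S (fun x => e (v x))) := by
  obtain ⟨D, _, 𝔇, m, hm⟩ := h
  refine ⟨D, inferInstance, 𝔇, m, fun v => ?_⟩
  show S (fun x => e (v x)) ↔ _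
  rw [hm]
  constructor
  · rintro ⟨f, hf, hv⟩
    refine ⟨fun d => e.symm (f d), fun R t ht => ?_, fun x => ?_⟩
    · show 𝔅.rel R (fun j => e (e.symm (f (t j))))
      simpa using hf R t ht
    · show v x = e.symm (f (m x))
      rw [← hv x, Equiv.symm_apply_apply]
  · rintro ⟨f, hf, hv⟩
    exact ⟨fun d => e (f d), fun R t ht => hf R t ht, fun x => congrArg e (hv x)⟩

lemma rfbh_pull {B B' : Type} {𝔅 : Str σ B} (e : B' ≃ B) (h : RFBH 𝔅) : RFBH (pull 𝔅 e) := by
  obtain ⟨hc, τ, 𝔄, hH, hF, hR⟩ := h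
  refine ⟨e.injective.countable, τ, pull 𝔄 e, ?_, ?_, ?_⟩
  · intro S f hf hR
    -- conjugate with `e`
    have hinj : Set.InjOn (fun x => e (f (e.symm x))) (S.image e : Finset B) := by
      intro x hx y hy hxy
      rw [Finset.mem_coe, Finset.mem_image] at hx hy
      obtain ⟨x, hx, rfl⟩ := hx
      obtain ⟨y, hy, rfl⟩ := hy
      have h1 : f x = f y := by
        have := e.injective hxy
        simpa using this
      rw [hf hx hy h1]
    have hrel : ∀ (R : τ.S) (t : Fin (τ.ar R) → B), (∀ j, t j ∈ S.image e) →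
        (𝔄.rel R t ↔ 𝔄.rel R (fun j => e (f (e.symm (t j))))) := by
      intro R t ht
      have h1 : ∀ j, ∃ x ∈ S, e x = t j := fun j => Finset.mem_image.1 (ht j)
      choose x hx hxt using h1
      have h2 := hR R x hx
      have h3 : t = fun j => e (x j) := funext fun j => (hxt j).symm
      rw [h3]
      simpa [pull] using h2
    obtain ⟨g, hg, hg'⟩ := hH (S.image e) (fun x => e (f (e.symm x))) hinj hrel
    refine ⟨(e.trans g).trans e.symm, fun R t => ?_, fun x hx => ?_⟩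
    · show 𝔄.rel R (fun j => e (t j)) ↔ 𝔄.rel R (fun j => e (e.symm (g (e (t j)))))
      rw [hg R (fun j => e (t j))]
      simp
    · show e.symm (g (e x)) = f x
      rw [hg' (e x) (Finset.mem_image_of_mem e hx)]
      simp
  · obtain ⟨F, hF1, hF2⟩ := hF
    refine ⟨F, hF1, fun B _ 𝔅' => ?_⟩
    rw [← hF2 B 𝔅']
    constructor
    · rintro ⟨f, hf1, hf2⟩
      exact ⟨fun b => e (f b), e.injective.comp hf1, hf2⟩
    · rintro ⟨f, hf1, hf2⟩
      refine ⟨fun b => e.symm (f b), e.symm.injective.comp hf1, fun R t => ?_⟩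
      show 𝔅'.rel R t ↔ 𝔄.rel R (fun j => e (e.symm (f (t j))))
      rw [hf2 R t]
      simp
  · intro R
    obtain ⟨R', h1, h2⟩ := hR R
    exact ⟨R', h1, fun t => h2 (fun j => e (t j))⟩

/-- Homogeneity of the split relation. -/
theorem homog_C [Finite K] {X : Type} [Finite X] {v w : X → Word c} (h : Same v w) :
    ∃ g : Word c ≃ Word c, (∀ x y z, Cc x y z ↔ Cc (g x) (g y) (g z)) ∧ ∀ x, g (v x) = w x := by
  refine (AUK_pf OPK_pf Tree.CTB_pf K c X (fun u => ∃ g : Word c ≃ Word c,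
    (∀ x y z, Cc x y z ↔ Cc (g x) (g y) (g z)) ∧ ∀ x, g (v x) = u x)).2 ?_ v w h
    ⟨Equiv.refl _, fun _ _ _ => Iff.rfl, fun _ => rfl⟩
  rintro g hg u ⟨g', hg', hu⟩
  exact ⟨g'.trans g, fun x y z => (hg' x y z).trans (hg _ _ _), fun x => congrArg g (hu x)⟩

/-- Invariance under automorphisms is invariance under equality of the splits. -/
theorem invU_of_autInv [Finite K] {𝔅 : Str σ (Word c)} (h : ∀ R, AutInv (𝔅.rel R)) : InvU 𝔅 :=
  fun R v w hvw hv => (AUK_pf OPK_pf Tree.CTB_pf K c _ (𝔅.rel R)).2 (h R) v w hvw hv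

theorem same_equiv {c' : ℚ → K} {e : Word c' ≃ Word c}
    (he : ∀ x y z, Cc x y z ↔ Cc (e x) (e y) (e z)) {X : Type} (u : X → Word c') :
    Same u (fun x => e (u x)) :=
  ⟨fun _ _ => e.injective.eq_iff.symm, fun _ _ _ => he _ _ _⟩

theorem bLang_pull {c' : ℚ → K} {𝔅 : Str σ (Word c)} (hL : BLang 𝔅) {e : Word c' ≃ Word c}
    (he : ∀ x y z, Cc x y z ↔ Cc (e x) (e y) (e z)) : BLang (pull 𝔅 e) := by
  refine ⟨fun R v w hvw hv => ?_, ?_⟩
  · exact hL.inv R _ _ ((same_equiv he v).symm.trans (hvw.trans (same_equiv he w))) hv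
  · have h := pp_pull_equiv e hL.ppC
    have h1 : (fun v : Fin 3 → Word c' => CC (c := c) (fun x => e (v x))) = CC (c := c') :=
      funext fun v => propext (he _ _ _).symm
    rwa [h1] at h

/-- Few letters: everything is trivial. -/
theorem inFP_trivial [Finite K] (hK : ¬ ∃ a b : K, a ≠ b) (𝔅 : Str σ (Word c)) :
    InFP (CSP 𝔅) := by
  push Not at hK
  have hsub : ∀ x y : Word c, x = y := fun x y => Subtype.ext (funext fun q => hK _ _)
  have hB : Loc.Inv 𝔅 := by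
    intro R v w _ hv
    have : v = w := funext fun i => hsub _ _
    rwa [← this]
  refine Loc.crit_pos hB ?_ ?_
  · intro R w hw
    obtain ⟨u, hu, _⟩ := hw Set.univ
    have : u = w := funext fun i => hsub _ _
    rwa [← this]
  · intro A _ 𝔄 W hR hS
    obtain ⟨h, _, x, _, y, _, hxy⟩ := hR W subset_rfl hS
    exact absurd (hK _ _) hxy

/-- Question Q1 for all languages over trees with finite branching numbers. -/
theorem main [Finite K] {𝔅 : Str σ (Word c)} (hL : BLang 𝔅) (h : InFPC (CSP 𝔅)) :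
    InFP (CSP 𝔅) := by
  by_cases hK : ∃ a b : K, a ≠ b
  · obtain ⟨a, b, hab⟩ := hK
    have : Nonempty K := ⟨a⟩
    obtain ⟨c', hc'⟩ := Tree.DNS_pf K
    have hL' := bLang_pull hL (ch_cc c' c)
    have h' : InFPC (CSP (pull 𝔅 (ch c' c))) :=
      inFPC_congr (fun A _ 𝔄 => (csp_pull_equiv 𝔅 (ch c' c) A 𝔄).symm) h
    obtain ⟨ι, hi, hι⟩ := IOT_pf K c' ⟨a, b, hab⟩
    exact inFP_congr (fun A _ 𝔄 => csp_pull_equiv 𝔅 (ch c' c) A 𝔄)
      (inFP_of_class ((class_dense ⟨a, b, hab⟩ hc' hL' hi hι).1 h'))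
  · exact inFP_trivial hK 𝔅

/-- The classification. -/
theorem class_main [Finite K] {𝔅 : Str σ (Word c)} (hL : BLang 𝔅)
    {ι : Word c₂ → Word c} (hi : Function.Injective ι)
    (hι : ∀ x y z, Cc x y z ↔ Cc (ι x) (ι y) (ι z)) : InFPC (CSP 𝔅) ↔
      (∀ R, Phy.HornC ((pull 𝔅 ι).rel R)) ∧
        ∀ (A : Type) [Finite A] (𝔄 : Str σ A), CSP 𝔅 A 𝔄 ↔ CSP (pull 𝔅 ι) A 𝔄 := by
  constructor
  · intro h
    have hK : ∃ a b : K, a ≠ b := by
      by_contra hK
      push Not at hK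
      have h1 : (⟨c₂, by simp⟩ : Word c₂) = ⟨Function.update c₂ 0 true, by
          refine (Set.finite_singleton (0 : ℚ)).subset (fun r hr => ?_)
          by_contra h
          exact hr (Function.update_of_ne h _ _)⟩ :=
        hi (Subtype.ext (funext fun q => hK _ _))
      have h2 := congrFun (congrArg Subtype.val h1) 0
      simp [c₂] at h2
    obtain ⟨a, b, hab⟩ := hK
    have : Nonempty K := ⟨a⟩
    obtain ⟨c', hc'⟩ := Tree.DNS_pf K
    have hL' := bLang_pull hL (ch_cc c' c)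
    have h' : InFPC (CSP (pull 𝔅 (ch c' c))) :=
      inFPC_congr (fun A _ 𝔄 => (csp_pull_equiv 𝔅 (ch c' c) A 𝔄).symm) h
    let ι' : Word c₂ → Word c' := fun x => ch c c' (ι x)
    have hi' : Function.Injective ι' := (ch c c').injective.comp hi
    have hι' : ∀ x y z, Cc x y z ↔ Cc (ι' x) (ι' y) (ι' z) :=
      fun x y z => (hι x y z).trans (ch_cc c c' _ _ _)
    have h1 := (class_dense ⟨a, b, hab⟩ hc' hL' hi' hι').1 h'
    have h2 : pull (pull 𝔅 (ch c' c)) ι' = pull 𝔅 ι := by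
      refine Loc.str_eq (fun R w => ?_)
      show 𝔅.rel R (fun j => ch c' c (ch c c' (ι (w j)))) ↔ 𝔅.rel R (fun j => ι (w j))
      have : (fun j => ch c' c (ch c c' (ι (w j)))) = fun j => ι (w j) :=
        funext fun j => chF_chF c c' _
      rw [this]
    rw [h2] at h1
    exact ⟨h1.1, fun A _ 𝔄 => (csp_pull_equiv 𝔅 (ch c' c) A 𝔄).symm.trans (h1.2 A 𝔄)⟩
  · rintro ⟨h1, h2⟩
    exact Phy.F2C_pf σ _ (inFP_congr (fun A _ 𝔄 => (h2 A 𝔄).symm) (Phy.inFP_of_hornC _ h1))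

theorem rfbh_main [Finite K] [Nonempty K] {𝔅 : Str σ (Word c)} (hB : InvU 𝔅) : RFBH 𝔅 := by
  obtain ⟨c', hc'⟩ := Tree.DNS_pf K
  have hB' : InvU (pull 𝔅 (ch c' c)) := fun R v w hvw hv =>
    hB R _ _ ((same_equiv (ch_cc c' c) v).symm.trans
      (hvw.trans (same_equiv (ch_cc c' c) w))) hv
  have h1 := rfbh_pull (ch c c') (Loc.rfbh hB'.inv hc')
  have h2 : pull (pull 𝔅 (ch c' c)) (ch c c') = 𝔅 := by
    refine Loc.str_eq (fun R w => ?_)
    show 𝔅.rel R (fun j => ch c' c (ch c c' (w j))) ↔ 𝔅.rel R w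
    have : (fun j => ch c' c (ch c c' (w j))) = w := funext fun j => chF_chF c c' _
    rw [this]
  rwa [h2] at h1

end Pool.Agent.Work.MP_8dbde4_lc.Bra
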